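import Mathlib

/-!
# Zero-free discs give small values (Borel-Caratheodory and three circles)
-/

set_option autoImplicit false
open Filter Topology Complex Metric Set

namespace Pool.Agent.Helper55.MZ

lemma exists_log {G : ℂ → ℂ} {r : ℝ} (hr : 0 < r) (hG : DifferentiableOn ℂ G (ball 0 r))
    (hne : ∀ z ∈ ball (0 : ℂ) r, G z ≠ 0) :
    ∃ g : ℂ → ℂ, DifferentiableOn ℂ g (ball 0 r) ∧ (∀ z ∈ ball (0 : ℂ) r, cexp (g z) = G z) ∧
      g 0 = Complex.log (G 0) := by
  have h0 : (0 : ℂ) ∈ ball (0 : ℂ) r := mem_ball_self hr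
  have hd : DifferentiableOn ℂ (fun z => deriv G z / G z) (ball 0 r) :=
    (hG.deriv isOpen_ball).div hG hne
  obtain ⟨g, hg0, hg⟩ := hd.isExactOn_ball.with_val_at 0 (Complex.log (G 0))
  have hgd : DifferentiableOn ℂ g (ball 0 r) := fun z hz =>
    (hg z hz).differentiableAt.differentiableWithinAt
  refine ⟨g, hgd, ?_, hg0⟩
  have hprod : ∀ z ∈ ball (0 : ℂ) r, HasDerivAt (fun z => G z * cexp (-g z)) 0 z := by
    intro z hz
    have h1 : HasDerivAt G (deriv G z) z :=
      (hG.differentiableAt (isOpen_ball.mem_nhds hz)).hasDerivAt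
    have h2 : HasDerivAt (fun z => cexp (-g z)) (cexp (-g z) * -(deriv G z / G z)) z :=
      (hg z hz).neg.cexp
    have h3 := h1.mul h2
    have h4 := hne z hz
    have h5 : deriv G z * cexp (-g z) + G z * (cexp (-g z) * -(deriv G z / G z)) = 0 := by
      field_simp
      ring
    rw [h5] at h3
    exact h3
  have hconst : ∀ z ∈ ball (0 : ℂ) r, G z * cexp (-g z) = 1 := by
    intro z hz
    have h1 := isOpen_ball.is_const_of_deriv_eq_zero (convex_ball (0 : ℂ) r).isPreconnected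
      (f := fun z => G z * cexp (-g z))
      (fun z hz => (hprod z hz).differentiableAt.differentiableWithinAt)
      (fun z hz => (hprod z hz).deriv) hz h0
    have h2 : G z * cexp (-g z) = G 0 * cexp (-g 0) := h1
    rw [h2, hg0, Complex.exp_neg, Complex.exp_log (hne 0 h0), mul_inv_cancel₀ (hne 0 h0)]
  intro z hz
  have h1 := hconst z hz
  rw [Complex.exp_neg, mul_inv_eq_one₀ (Complex.exp_ne_zero _)] at h1
  exact h1.symm

lemma local_bound {G : ℂ → ℂ} {r r' M : ℝ} (hrr : r' < r) (hr' : 1 / 2 < r') (hr1 : 1 < r)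
    (hM : 1 ≤ M) (hG : DifferentiableOn ℂ G (ball 0 r))
    (hne : ∀ z ∈ ball (0 : ℂ) r, G z ≠ 0) (h1 : ∀ z ∈ ball (0 : ℂ) 1, ‖G z - 1‖ ≤ 1 / 2)
    (hGM : ∀ z ∈ ball (0 : ℂ) r, ‖G z‖ ≤ Real.exp M) {z0 : ℂ} (hz0 : 1 / 2 ≤ ‖z0‖)
    (hz0' : ‖z0‖ ≤ r') :
    ‖G z0‖ ≤ Real.exp (5 ^ (1 - (Real.log ‖z0‖ - Real.log (1 / 2)) /
      (Real.log r' - Real.log (1 / 2))) * ((3 * r' + r) / (r - r') * M) ^
      ((Real.log ‖z0‖ - Real.log (1 / 2)) / (Real.log r' - Real.log (1 / 2)))) := by
  have hr0 : 0 < r := by linarith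
  obtain ⟨g, hgd, hgexp, hg0⟩ := exists_log hr0 hG hne
  have hG0 : ‖g 0‖ ≤ 3 / 4 := by
    have h2 := h1 0 (mem_ball_self one_pos)
    have h3 := Complex.norm_log_one_add_half_le_self h2
    rw [add_sub_cancel] at h3
    rw [hg0]
    linarith
  have hre : ∀ z ∈ ball (0 : ℂ) r, (g z).re = Real.log ‖G z‖ := by
    intro z hz
    rw [← hgexp z hz, Complex.norm_exp, Real.log_exp]
  have hGpos : ∀ z ∈ ball (0 : ℂ) r, 0 < ‖G z‖ := fun z hz => norm_pos_iff.2 (hne z hz)
  -- small disc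
  have hsmall : ∀ z : ℂ, ‖z‖ ≤ 1 / 2 → ‖g z‖ ≤ 5 := by
    intro z hz
    have hz1 : z ∈ ball (0 : ℂ) 1 := by
      rw [mem_ball_zero_iff]; linarith
    have hsub : ball (0 : ℂ) 1 ⊆ ball 0 r := ball_subset_ball hr1.le
    have hmaps : MapsTo g (ball 0 1) {z | z.re ≤ 1} := by
      intro w hw
      have h2 := h1 w hw
      have h3 : ‖G w‖ ≤ 3 / 2 := by
        have := norm_add_le (G w - 1) 1
        rw [sub_add_cancel, norm_one] at this
        linarith
      show (g w).re ≤ 1
      rw [hre w (hsub hw)]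
      have h4 := Real.log_le_sub_one_of_pos (hGpos w (hsub hw))
      linarith
    have h2 := Complex.borelCaratheodory one_pos (hgd.mono hsub) hmaps one_pos hz1
    refine h2.trans ?_
    have hz0 := norm_nonneg z
    have h3 : 2 * 1 * ‖z‖ / (1 - ‖z‖) ≤ 2 := by
      rw [div_le_iff₀ (by linarith)]; linarith
    have h4 : ‖g 0‖ * (1 + ‖z‖) / (1 - ‖z‖) ≤ 3 := by
      rw [div_le_iff₀ (by linarith)]
      have := norm_nonneg (g 0)
      nlinarith
    linarith
  -- large disc
  have hlarge : ∀ z : ℂ, ‖z‖ ≤ r' → ‖g z‖ ≤ (3 * r' + r) / (r - r') * M := by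
    intro z hz
    have hzr : z ∈ ball (0 : ℂ) r := by
      rw [mem_ball_zero_iff]; linarith
    have hmaps : MapsTo g (ball 0 r) {z | z.re ≤ M} := by
      intro w hw
      show (g w).re ≤ M
      rw [hre w hw]
      have h3 := Real.log_le_log (hGpos w hw) (hGM w hw)
      rwa [Real.log_exp] at h3
    have h2 := Complex.borelCaratheodory (by linarith) hgd hmaps hr0 hzr
    refine h2.trans ?_
    have hz0 := norm_nonneg z
    have hg00 := norm_nonneg (g 0)
    rw [← add_div, div_mul_eq_mul_div, div_le_div_iff₀ (by linarith) (by linarith)]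
    have h3 : 2 * M * ‖z‖ + ‖g 0‖ * (r + ‖z‖) ≤ (3 * r' + r) * M := by
      have e1 : 2 * M * ‖z‖ ≤ 2 * M * r' := by nlinarith
      have e2 : ‖g 0‖ * (r + ‖z‖) ≤ 1 * (r + r') := by
        apply mul_le_mul (by linarith) (by linarith) (by linarith) (by norm_num)
      have e3 : r + r' ≤ (r + r') * M := by nlinarith
      nlinarith
    have h4 : 0 ≤ (3 * r' + r) * M := by nlinarith
    have h5 : r - r' ≤ r - ‖z‖ := by linarith
    calc (2 * M * ‖z‖ + ‖g 0‖ * (r + ‖z‖)) * (r - r')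
        ≤ (3 * r' + r) * M * (r - r') := mul_le_mul_of_nonneg_right h3 (by linarith)
      _ ≤ (3 * r' + r) * M * (r - ‖z‖) := mul_le_mul_of_nonneg_left h5 h4
  -- three lines
  have hzpos : 0 < ‖z0‖ := by linarith
  set ζ : ℂ := z0 / ‖z0‖ with hζ
  have hζ1 : ‖ζ‖ = 1 := by
    rw [hζ, norm_div, Complex.norm_real, norm_norm, div_self hzpos.ne']
  set h : ℂ → ℂ := fun w => g (ζ * cexp w) with hh
  have hnorm : ∀ w : ℂ, ‖ζ * cexp w‖ = Real.exp w.re := by
    intro w
    rw [norm_mul, hζ1, one_mul, Complex.norm_exp]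
  have hl : Real.exp (Real.log (1 / 2)) = 1 / 2 := Real.exp_log (by norm_num)
  have hu : Real.exp (Real.log r') = r' := Real.exp_log (by linarith)
  have hul : Real.log (1 / 2) < Real.log r' := Real.log_lt_log (by norm_num) hr'
  have hcl : closure (HadamardThreeLines.verticalStrip (Real.log (1 / 2)) (Real.log r')) ⊆
      {w : ℂ | w.re ≤ Real.log r'} := by
    apply closure_minimal
    · intro w hw
      exact (hw : w.re ∈ Ioo _ _).2.le
    · exact isClosed_le Complex.continuous_re continuous_const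
  have hdiff : ∀ w : ℂ, w.re ≤ Real.log r' → DifferentiableAt ℂ h w := by
    intro w hw
    have h2 : ζ * cexp w ∈ ball (0 : ℂ) r := by
      rw [mem_ball_zero_iff, hnorm]
      calc Real.exp w.re ≤ Real.exp (Real.log r') := Real.exp_le_exp.2 hw
        _ = r' := hu
        _ < r := hrr
    have h3 : DifferentiableAt ℂ g (ζ * cexp w) :=
      hgd.differentiableAt (isOpen_ball.mem_nhds h2)
    exact h3.comp w (by fun_prop)
  have h3l := HadamardThreeLines.norm_le_interp_of_mem_verticalClosedStrip' (f := h)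
    (z := (Real.log ‖z0‖ : ℂ)) (a := 5) (b := (3 * r' + r) / (r - r') * M)
    (l := Real.log (1 / 2)) (u := Real.log r') hul
    (by
      show ((Real.log ‖z0‖ : ℂ)).re ∈ Icc _ _
      rw [Complex.ofReal_re]
      exact ⟨Real.log_le_log (by norm_num) hz0, Real.log_le_log hzpos hz0'⟩)
    (by
      apply DifferentiableOn.diffContOnCl
      intro w hw
      exact (hdiff w (hcl hw)).differentiableWithinAt)
    (by
      refine ⟨(3 * r' + r) / (r - r') * M, ?_⟩
      rintro _ ⟨w, hw, rfl⟩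
      have h2 : w.re ≤ Real.log r' := (hw : w.re ∈ Icc _ _).2
      refine hlarge _ ?_
      rw [hnorm, ← hu]
      exact Real.exp_le_exp.2 h2)
    (by
      intro w hw
      have h2 : w.re = Real.log (1 / 2) := hw
      refine hsmall _ ?_
      rw [hnorm, h2, hl])
    (by
      intro w hw
      have h2 : w.re = Real.log r' := hw
      refine hlarge _ ?_
      rw [hnorm, h2, hu])
  have hval : h (Real.log ‖z0‖ : ℂ) = g z0 := by
    rw [hh]
    simp only
    congr 1
    rw [← Complex.ofReal_exp, Real.exp_log hzpos, hζ]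
    have : ((‖z0‖ : ℝ) : ℂ) ≠ 0 := by exact_mod_cast hzpos.ne'
    field_simp
  rw [hval, Complex.ofReal_re] at h3l
  have hz0r : z0 ∈ ball (0 : ℂ) r := by
    rw [mem_ball_zero_iff]; linarith
  rw [← hgexp z0 hz0r, Complex.norm_exp]
  exact Real.exp_le_exp.2 ((Complex.re_le_norm _).trans h3l)

end Pool.Agent.Helper55.MZ
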