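import Pool.Agent.Helper55.MZ.FDef
import Pool.Agent.Helper29.Euler

/-!
# Coefficients of completely multiplicative functions with small partial sums
-/

set_option autoImplicit false
open Filter Topology Complex Set

namespace Pool.Agent.Helper55.MZ

/-- complete multiplicativity on positive integers -/
structure CMul (f : ℕ → ℂ) : Prop where
  one : f 1 = 1
  mul : ∀ m n : ℕ, 0 < m → 0 < n → f (m * n) = f m * f n

lemma CMul.pow {f : ℕ → ℂ} (h : CMul f) {n : ℕ} (hn : 0 < n) (k : ℕ) :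
    f (n ^ k) = f n ^ k := by
  induction k with
  | zero => simpa using h.one
  | succ j ih => rw [pow_succ, h.mul _ _ (pow_pos hn j) hn, ih, pow_succ]

lemma Small.coeff_aux {f : ℕ → ℂ} {β C : ℝ} (h : Small f β C) (h1 : f 1 = 1) {n : ℕ}
    (hn : 1 ≤ n) : ‖f n‖ ≤ (3 * C + 1) * (n : ℝ) ^ (-β) := by
  have hC := h.C0
  have hβ := h.β0
  rcases Nat.lt_or_ge 1 n with h2 | h2
  · obtain ⟨m, rfl⟩ : ∃ m, n = m + 1 := ⟨n - 1, by omega⟩
    have hm : 1 ≤ m := by omega
    have hm0 : (1 : ℝ) ≤ m := by exact_mod_cast hm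
    have e : f (m + 1) = SS f (m + 1) - SS f m := by
      unfold SS
      rw [Finset.sum_Icc_succ_top (by omega)]
      ring
    have b1 := h.bound (m + 1) (by omega)
    have b2 := h.bound m hm
    have b3 : (m : ℝ) ^ (-β) ≤ 2 * ((m + 1 : ℕ) : ℝ) ^ (-β) := by
      have c1 : ((m + 1 : ℕ) : ℝ) ≤ 2 * m := by push_cast; linarith
      have c2 : (2 * (m : ℝ)) ^ (-β) ≤ ((m + 1 : ℕ) : ℝ) ^ (-β) :=
        Real.rpow_le_rpow_of_nonpos (by positivity) c1 (by linarith)
      rw [Real.mul_rpow (by norm_num) (by linarith)] at c2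
      have c3 : (1 / 2 : ℝ) ≤ 2 ^ (-β) := by
        calc (1 / 2 : ℝ) = 2 ^ (-1 : ℝ) := by rw [Real.rpow_neg (by norm_num), Real.rpow_one]; norm_num
          _ ≤ 2 ^ (-β) := Real.rpow_le_rpow_of_exponent_le (by norm_num) (by linarith [h.β1])
      have c4 : (0 : ℝ) ≤ (m : ℝ) ^ (-β) := by positivity
      nlinarith
    rw [e]
    refine (norm_sub_le _ _).trans ?_
    have c5 : (0 : ℝ) ≤ ((m + 1 : ℕ) : ℝ) ^ (-β) := by positivity
    nlinarith
  · have : n = 1 := by omega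
    subst this
    rw [h1, norm_one, Nat.cast_one, Real.one_rpow]
    linarith

lemma Small.coeff {f : ℕ → ℂ} {β C : ℝ} (h : Small f β C) (hf : CMul f) {n : ℕ}
    (hn : 1 ≤ n) : ‖f n‖ ≤ (n : ℝ) ^ (-β) := by
  have hn0 : (0 : ℝ) < n := by exact_mod_cast hn
  by_contra hcon
  push Not at hcon
  have hp : 0 < (n : ℝ) ^ (-β) := Real.rpow_pos_of_pos hn0 _
  set y : ℝ := ‖f n‖ / (n : ℝ) ^ (-β) with hy
  have hy1 : 1 < y := by rw [hy, one_lt_div hp]; exact hcon
  have hk : ∀ k : ℕ, y ^ k ≤ 3 * C + 1 := by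
    intro k
    have h1 := h.coeff_aux hf.one (n := n ^ k) (Nat.one_le_pow _ _ hn)
    rw [hf.pow hn, norm_pow] at h1
    have e : ((n ^ k : ℕ) : ℝ) ^ (-β) = ((n : ℝ) ^ (-β)) ^ k := by
      push_cast
      rw [← Real.rpow_natCast, ← Real.rpow_natCast, ← Real.rpow_mul hn0.le,
        ← Real.rpow_mul hn0.le, mul_comm]
    rw [e] at h1
    rw [hy, div_pow, div_le_iff₀ (by positivity)]
    exact h1
  obtain ⟨k, hk'⟩ := pow_unbounded_of_one_lt (3 * C + 1) hy1
  exact absurd (hk k) (not_le.2 hk')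

lemma Small.coeff_one {f : ℕ → ℂ} {β C : ℝ} (h : Small f β C) (hf : CMul f) (n : ℕ)
    (hn : 1 ≤ n) : ‖f n‖ ≤ 1 := by
  refine (h.coeff hf hn).trans ?_
  have : (1 : ℝ) ≤ n := by exact_mod_cast hn
  exact Real.rpow_le_one_of_one_le_of_nonpos this (by linarith [h.β0])

open Pool.Agent.Helper29 ArithmeticFunction in
lemma Small.not_summable {f : ℕ → ℂ} {β C : ℝ} (h : Small f β C) (hf : CMul f) :
    ¬ Summable fun n : ℕ => ‖f n‖ := by
  intro hs
  set φ : ArithmeticFunction ℂ := ⟨fun n => if n = 0 then 0 else f n, by simp⟩ with hφ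
  have hφn : ∀ n, n ≠ 0 → φ n = f n := by
    intro n hn
    rw [hφ, coe_mk, if_neg hn]
  have hφ0 : φ 0 = 0 := φ.map_zero
  have hCM : CM φ := by
    constructor
    · rw [hφn 1 one_ne_zero, hf.one]
    · intro m n
      rcases Nat.eq_zero_or_pos m with rfl | hm
      · rw [zero_mul, hφ0, zero_mul]
      rcases Nat.eq_zero_or_pos n with rfl | hn
      · rw [mul_zero, hφ0, mul_zero]
      rw [hφn _ (Nat.mul_pos hm hn).ne', hφn _ hm.ne', hφn _ hn.ne', hf.mul m n hm hn]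
  have hnorm : ∀ n, ‖φ n‖ ≤ ‖f n‖ := by
    intro n
    rcases eq_or_ne n 0 with rfl | hn
    · rw [hφ0, norm_zero]; exact norm_nonneg _
    · rw [hφn n hn]
  have hterm : ∀ (g : ℕ → ℂ), g 0 = 0 → ∀ n, LSeries.term g 0 n = g n := by
    intro g hg n
    rcases eq_or_ne n 0 with rfl | hn
    · rw [LSeries.term_zero, hg]
    · rw [LSeries.term_of_ne_zero hn, Complex.cpow_zero, div_one]
  have hsum : LSeriesSummable (fun n => φ n) 0 := by
    unfold LSeriesSummable
    refine Summable.of_norm_bounded hs fun n => ?_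
    rw [hterm _ hφ0]
    exact hnorm n
  set ψ : ArithmeticFunction ℂ := φ.pmul ((ArithmeticFunction.moebius : ArithmeticFunction ℤ) :
    ArithmeticFunction ℂ) with hψ
  have hψ0 : ψ 0 = 0 := ψ.map_zero
  have hsum2 : LSeriesSummable (fun n => ψ n) 0 := by
    unfold LSeriesSummable
    refine Summable.of_norm_bounded hs fun n => ?_
    rw [hterm _ hψ0, hψ, pmul_apply, norm_mul]
    have h1 : ‖((ArithmeticFunction.moebius : ArithmeticFunction ℤ) :
        ArithmeticFunction ℂ) n‖ ≤ 1 := by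
      rw [intCoe_apply, Complex.norm_intCast]
      exact_mod_cast abs_moebius_le_one
    calc ‖φ n‖ * _ ≤ ‖φ n‖ * 1 := mul_le_mul_of_nonneg_left h1 (norm_nonneg _)
      _ ≤ ‖f n‖ := by rw [mul_one]; exact hnorm n
  have hmul := ArithmeticFunction.LSeries_mul' hsum2 hsum
  have hinv : ψ * φ = 1 := hCM.inv
  rw [hinv] at hmul
  have hone : LSeries (fun n => (1 : ArithmeticFunction ℂ) n) 0 = 1 := by
    have : (fun n => LSeries.term (fun n => (1 : ArithmeticFunction ℂ) n) 0 n) =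
        fun n => if n = 1 then (1 : ℂ) else 0 := by
      funext n
      rw [hterm _ (by simp)]
      exact one_apply
    unfold LSeries
    rw [this, tsum_ite_eq]
  -- the sum is zero
  have hzero : LSeries (fun n => φ n) 0 = 0 := by
    have h1 : Summable fun n => φ n := by
      refine Summable.of_norm_bounded hs hnorm
    have h2 : LSeries (fun n => φ n) 0 = ∑' n, φ n := by
      unfold LSeries
      exact tsum_congr fun n => hterm _ hφ0 n
    rw [h2]
    have h3 := h1.hasSum.tendsto_sum_nat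
    have h4 : Tendsto (fun N : ℕ => ∑ n ∈ Finset.range (N + 1), φ n) atTop (𝓝 (∑' n, φ n)) :=
      h3.comp (tendsto_add_atTop_nat 1)
    have h5 : ∀ N : ℕ, ∑ n ∈ Finset.range (N + 1), φ n = SS f N := by
      intro N
      induction N with
      | zero => rw [SS_zero, Finset.sum_range_one, hφ0]
      | succ k ih =>
        rw [Finset.sum_range_succ, ih, hφn _ (Nat.succ_ne_zero k)]
        unfold SS
        rw [Finset.sum_Icc_succ_top (by omega)]
    have h6 : Tendsto (fun N : ℕ => SS f N) atTop (𝓝 0) := by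
      rw [tendsto_zero_iff_norm_tendsto_zero]
      have h7 : Tendsto (fun N : ℕ => C * (N : ℝ) ^ (-β)) atTop (𝓝 0) := by
        have := ((tendsto_rpow_neg_atTop h.β0).comp tendsto_natCast_atTop_atTop).const_mul C
        simpa using this
      refine squeeze_zero' (Filter.Eventually.of_forall fun _ => norm_nonneg _) ?_ h7
      filter_upwards [Filter.eventually_ge_atTop 1] with N hN
      exact h.bound N hN
    refine tendsto_nhds_unique h4 ?_
    refine h6.congr fun N => (h5 N).symm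
  rw [hone, hzero, mul_zero] at hmul
  exact one_ne_zero hmul

/-- the mean square is large infinitely often -/
lemma frequently_large {f : ℕ → ℂ} {σ c : ℝ} (hc : 0 < c)
    (hns : ¬ Summable fun n : ℕ => ‖f n‖ ^ 2 * (n : ℝ) ^ (-2 * (σ + c))) (X0 : ℕ) :
    ∃ X : ℕ, X0 ≤ X ∧ 1 ≤ X ∧
      (X : ℝ) ^ c < ∑ n ∈ Finset.Icc 1 X, ‖f n‖ ^ 2 * (n : ℝ) ^ (-2 * σ) := by
  by_contra hcon
  push Not at hcon
  apply hns
  set b : ℕ → ℂ := fun n => ((‖f n‖ ^ 2 * (n : ℝ) ^ (-2 * σ) : ℝ) : ℂ) with hb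
  have hbn : ∀ n, ‖b n‖ = ‖f n‖ ^ 2 * (n : ℝ) ^ (-2 * σ) := by
    intro n
    rw [hb]
    simp only
    rw [Complex.norm_real, Real.norm_eq_abs, abs_of_nonneg (by positivity)]
  have hO : (fun n : ℕ => ∑ k ∈ Finset.Icc 1 n, ‖b k‖) =O[atTop]
      fun n : ℕ => (n : ℝ) ^ c := by
    refine Asymptotics.IsBigO.of_bound 1 ?_
    filter_upwards [Filter.eventually_ge_atTop (max X0 1)] with n hn
    have h1 := hcon n (le_trans (le_max_left _ _) hn) (le_trans (le_max_right _ _) hn)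
    rw [Finset.sum_congr rfl fun k _ => hbn k, Real.norm_eq_abs, Real.norm_eq_abs,
      abs_of_nonneg (by positivity), abs_of_nonneg (by positivity), one_mul]
    exact h1
  have hs := LSeriesSummable_of_sum_norm_bigO (s := ((2 * c : ℝ) : ℂ)) hO hc.le
    (by rw [Complex.ofReal_re]; linarith)
  have h2 : Summable fun n : ℕ => ‖LSeries.term b ((2 * c : ℝ) : ℂ) n‖ := hs.norm
  rw [← summable_nat_add_iff 1] at h2 ⊢
  refine h2.congr fun n => ?_
  have hn0 : (0 : ℝ) < ((n + 1 : ℕ) : ℝ) := by positivity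
  rw [LSeries.term_of_ne_zero (Nat.succ_ne_zero n), norm_div, hbn,
    Complex.norm_natCast_cpow_of_pos (Nat.succ_pos n), Complex.ofReal_re, mul_div_assoc,
    ← Real.rpow_sub hn0]
  congr 2
  ring

/-- the mean square abscissa is at least `-1/2` -/
lemma Small.mean_square_diverges {f : ℕ → ℂ} {β C : ℝ} (h : Small f β C) (hf : CMul f) {σ : ℝ}
    (hσ : σ < -(1 / 2)) : ¬ Summable fun n : ℕ => ‖f n‖ ^ 2 * (n : ℝ) ^ (-2 * σ) := by
  intro h2
  apply h.not_summable hf
  obtain ⟨κ, hκ, hκσ⟩ : ∃ κ : ℝ, 0 < κ ∧ -2 * σ = 1 + κ := ⟨-2 * σ - 1, by linarith, by ring⟩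
  have h3 : Summable fun n : ℕ => (n : ℝ) ^ (-1 - κ) := summable_pow hκ
  have h4 := h2.add h3
  rw [← summable_nat_add_iff 1] at h4 ⊢
  refine Summable.of_nonneg_of_le (fun n => norm_nonneg _) (fun n => ?_) h4
  have hn0 : (0 : ℝ) < ((n + 1 : ℕ) : ℝ) := by positivity
  set x : ℝ := ((n + 1 : ℕ) : ℝ) with hx
  rw [hκσ]
  have e2 : x ^ (1 + κ) = (x ^ ((1 + κ) / 2)) ^ 2 := by
    rw [← Real.rpow_natCast, ← Real.rpow_mul hn0.le]
    congr 1
    push_cast
    ring
  have e3 : x ^ (-1 - κ) = (x ^ (-((1 + κ) / 2))) ^ 2 := by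
    rw [← Real.rpow_natCast, ← Real.rpow_mul hn0.le]
    congr 1
    push_cast
    ring
  have e4 : x ^ ((1 + κ) / 2) * x ^ (-((1 + κ) / 2)) = 1 := by
    rw [← Real.rpow_add hn0, add_neg_cancel, Real.rpow_zero]
  rw [e2, e3]
  set A : ℝ := x ^ ((1 + κ) / 2) with hA
  set A' : ℝ := x ^ (-((1 + κ) / 2)) with hA'
  have h5 : 0 ≤ (‖f (n + 1)‖ * A - A') ^ 2 := sq_nonneg _
  have h6 : ‖f (n + 1)‖ * A * A' = ‖f (n + 1)‖ := by rw [mul_assoc, e4, mul_one]
  have h7 := norm_nonneg (f (n + 1))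
  nlinarith [sq_nonneg (‖f (n + 1)‖ * A), sq_nonneg A']

end Pool.Agent.Helper55.MZ
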