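import Mathlib

/-!
# Continuation of a Dirichlet series with small partial sums
-/

set_option autoImplicit false
open Filter Topology Complex Set

namespace Pool.Agent.Helper55.MZ

/-- partial sums -/
noncomputable def SS (f : ℕ → ℂ) (N : ℕ) : ℂ := ∑ n ∈ Finset.Icc 1 N, f n

/-- the terms after partial summation -/
noncomputable def tt (f : ℕ → ℂ) (s : ℂ) (n : ℕ) : ℂ :=
  SS f n * ((n : ℂ) ^ (-s) - ((n : ℂ) + 1) ^ (-s))

/-- the continued Dirichlet series -/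
noncomputable def FF (f : ℕ → ℂ) (s : ℂ) : ℂ := ∑' n : ℕ, tt f s n

lemma SS_zero (f : ℕ → ℂ) : SS f 0 = 0 := by simp [SS]

lemma cpow_diff {s : ℂ} (hs : -1 ≤ s.re) {n : ℕ} (hn : 1 ≤ n) :
    ‖(n : ℂ) ^ (-s) - ((n : ℂ) + 1) ^ (-s)‖ ≤ ‖s‖ * (n : ℝ) ^ (-s.re - 1) := by
  have hn0 : (0 : ℝ) < n := by exact_mod_cast hn
  have hderiv : ∀ x ∈ Icc (n : ℝ) (n + 1), HasDerivWithinAt (fun x : ℝ => (x : ℂ) ^ (-s))
      (-s * (x : ℂ) ^ (-s - 1)) (Icc (n : ℝ) (n + 1)) x := by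
    intro x hx
    have hx0 : 0 < x := lt_of_lt_of_le hn0 hx.1
    have h1 : HasDerivAt (fun z : ℂ => z ^ (-s)) (-s * (x : ℂ) ^ (-s - 1)) (x : ℂ) := by
      have := (hasDerivAt_id (x : ℂ)).cpow_const (c := -s) (Or.inl (by simpa using hx0))
      simpa using this
    exact h1.comp_ofReal.hasDerivWithinAt
  have hbound : ∀ x ∈ Icc (n : ℝ) (n + 1), ‖-s * (x : ℂ) ^ (-s - 1)‖ ≤
      ‖s‖ * (n : ℝ) ^ (-s.re - 1) := by
    intro x hx
    have hx0 : 0 < x := lt_of_lt_of_le hn0 hx.1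
    rw [norm_mul, norm_neg, Complex.norm_cpow_eq_rpow_re_of_pos hx0]
    apply mul_le_mul_of_nonneg_left _ (norm_nonneg _)
    have : (-s - 1).re = -s.re - 1 := by simp
    rw [this]
    exact Real.rpow_le_rpow_of_nonpos hn0 hx.1 (by linarith)
  have h := Convex.norm_image_sub_le_of_norm_hasDerivWithin_le hderiv hbound
    (convex_Icc _ _) (show ((n : ℝ) + 1) ∈ Icc (n : ℝ) (n + 1) from ⟨by linarith, le_rfl⟩)
    (show (n : ℝ) ∈ Icc (n : ℝ) (n + 1) from ⟨le_rfl, by linarith⟩)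
  have e : ‖(n : ℝ) - (n + 1)‖ = 1 := by
    rw [sub_add_cancel_left, norm_neg, norm_one]
  rw [e, mul_one] at h
  simpa using h

/-- data for a function with small partial sums -/
structure Small (f : ℕ → ℂ) (β C : ℝ) : Prop where
  β0 : 0 < β
  β1 : β ≤ 1
  C0 : 0 ≤ C
  bound : ∀ N : ℕ, 1 ≤ N → ‖SS f N‖ ≤ C * (N : ℝ) ^ (-β)

lemma Small.tt_le {f : ℕ → ℂ} {β C : ℝ} (h : Small f β C) {η : ℝ} (hη : 0 ≤ η) {s : ℂ}
    (hs : -β + η ≤ s.re) (n : ℕ) : ‖tt f s n‖ ≤ ‖s‖ * (C * (n : ℝ) ^ (-1 - η)) := by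
  rcases Nat.eq_zero_or_pos n with rfl | hn
  · rw [tt, SS_zero, zero_mul, norm_zero]
    have := h.C0
    have h0 := norm_nonneg s
    have h1 : (0 : ℝ) ≤ ((0 : ℕ) : ℝ) ^ (-1 - η) := Real.rpow_nonneg (by simp) _
    positivity
  · have hn0 : (0 : ℝ) < n := by exact_mod_cast hn
    have hn1 : (1 : ℝ) ≤ n := by exact_mod_cast hn
    have hβ := h.β1
    rw [tt, norm_mul]
    calc ‖SS f n‖ * ‖(n : ℂ) ^ (-s) - ((n : ℂ) + 1) ^ (-s)‖
        ≤ (C * (n : ℝ) ^ (-β)) * (‖s‖ * (n : ℝ) ^ (-s.re - 1)) :=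
          mul_le_mul (h.bound n hn) (cpow_diff (by linarith) hn) (norm_nonneg _)
            (mul_nonneg h.C0 (by positivity))
      _ = ‖s‖ * (C * ((n : ℝ) ^ (-β) * (n : ℝ) ^ (-s.re - 1))) := by ring
      _ ≤ ‖s‖ * (C * (n : ℝ) ^ (-1 - η)) := by
          apply mul_le_mul_of_nonneg_left _ (norm_nonneg _)
          apply mul_le_mul_of_nonneg_left _ h.C0
          rw [← Real.rpow_add hn0]
          exact Real.rpow_le_rpow_of_exponent_le hn1 (by linarith)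

lemma summable_pow {η : ℝ} (hη : 0 < η) : Summable fun n : ℕ => (n : ℝ) ^ (-1 - η) :=
  Real.summable_nat_rpow.2 (by linarith)

lemma Small.summable_tt {f : ℕ → ℂ} {β C : ℝ} (h : Small f β C) {s : ℂ} (hs : -β < s.re) :
    Summable (tt f s) := by
  obtain ⟨η, hη, hη'⟩ : ∃ η : ℝ, 0 < η ∧ -β + η ≤ s.re := ⟨s.re + β, by linarith, by linarith⟩
  exact Summable.of_norm_bounded (((summable_pow hη).mul_left C).mul_left ‖s‖)
    (fun n => h.tt_le hη.le hη' n)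

lemma Small.differentiableOn {f : ℕ → ℂ} {β C : ℝ} (h : Small f β C) :
    DifferentiableOn ℂ (FF f) {s | -β < s.re} := by
  intro s hs
  have hs' : -β < s.re := hs
  obtain ⟨η, hη, hη'⟩ : ∃ η : ℝ, 0 < η ∧ -β + η < s.re :=
    ⟨(s.re + β) / 2, by linarith, by linarith⟩
  set U : Set ℂ := {w : ℂ | -β + η < w.re ∧ ‖w‖ < ‖s‖ + 1} with hU
  have hUo : IsOpen U :=
    (isOpen_lt continuous_const Complex.continuous_re).inter
      (isOpen_lt continuous_norm continuous_const)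
  have hsU : s ∈ U := ⟨hη', by linarith⟩
  have hd : DifferentiableOn ℂ (fun w => ∑' n : ℕ, tt f w n) U := by
    refine differentiableOn_tsum_of_summable_norm (u := fun n : ℕ =>
      (‖s‖ + 1) * (C * (n : ℝ) ^ (-1 - η))) (((summable_pow hη).mul_left C).mul_left _) ?_ hUo ?_
    · intro n
      unfold tt
      rcases Nat.eq_zero_or_pos n with rfl | hn
      · simp only [SS_zero, zero_mul]
        exact differentiableOn_const _
      · have hn0 : (n : ℂ) ≠ 0 := by exact_mod_cast hn.ne'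
        have hn1 : (n : ℂ) + 1 ≠ 0 := by exact_mod_cast (Nat.succ_ne_zero n)
        intro w _
        apply DifferentiableAt.differentiableWithinAt
        apply DifferentiableAt.const_mul
        apply DifferentiableAt.sub
        · exact (differentiableAt_id.neg).const_cpow (Or.inl hn0)
        · exact (differentiableAt_id.neg).const_cpow (Or.inl hn1)
    · intro n w hw
      refine (h.tt_le hη.le hw.1.le n).trans ?_
      apply mul_le_mul_of_nonneg_right hw.2.le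
      have h1 : (0 : ℝ) ≤ (n : ℝ) ^ (-1 - η) := Real.rpow_nonneg (by positivity) _
      exact mul_nonneg h.C0 h1
  exact ((hd.differentiableAt (hUo.mem_nhds hsU))).differentiableWithinAt

lemma abel (f : ℕ → ℂ) (s : ℂ) (M : ℕ) :
    ∑ m ∈ Finset.Icc 1 M, f m * (m : ℂ) ^ (-s) =
      SS f M * ((M : ℂ) + 1) ^ (-s) + ∑ n ∈ Finset.range (M + 1), tt f s n := by
  induction M with
  | zero => simp [SS_zero, tt]
  | succ k ih =>
    rw [Finset.sum_Icc_succ_top (by omega), ih, Finset.sum_range_succ _ (k + 1)]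
    have h1 : SS f (k + 1) = SS f k + f (k + 1) := by
      unfold SS
      rw [Finset.sum_Icc_succ_top (by omega)]
    unfold tt
    rw [h1]
    push_cast
    ring

lemma Small.approx {f : ℕ → ℂ} {β C : ℝ} (h : Small f β C) {η : ℝ} (hη : 0 < η) :
    ∃ e : ℕ → ℝ, Tendsto e atTop (𝓝 0) ∧ ∀ s : ℂ, -β + η ≤ s.re → ∀ M : ℕ, 1 ≤ M →
      ‖FF f s - ∑ m ∈ Finset.Icc 1 M, f m * (m : ℂ) ^ (-s)‖ ≤ e M * (1 + ‖s‖) := by
  set τ : ℕ → ℝ := fun M => ∑' n : ℕ, C * ((n + (M + 1) : ℕ) : ℝ) ^ (-1 - η) with hτ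
  have hsum := (summable_pow hη).mul_left C
  have hτ0 : Tendsto τ atTop (𝓝 0) := by
    have h1 := tendsto_sum_nat_add (fun n : ℕ => C * (n : ℝ) ^ (-1 - η))
    exact h1.comp (tendsto_add_atTop_nat 1)
  have hτnn : ∀ M, 0 ≤ τ M := fun M => tsum_nonneg fun n =>
    mul_nonneg h.C0 (Real.rpow_nonneg (by positivity) _)
  refine ⟨fun M => τ M + C * 2 * (M : ℝ) ^ (-η), ?_, ?_⟩
  · have h2 : Tendsto (fun M : ℕ => (M : ℝ) ^ (-η)) atTop (𝓝 0) :=
      (tendsto_rpow_neg_atTop hη).comp tendsto_natCast_atTop_atTop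
    have h3 := hτ0.add (h2.const_mul (C * 2))
    simpa using h3
  · intro s hs M hM
    have hM0 : (0 : ℝ) < M := by exact_mod_cast hM
    have hM1 : (1 : ℝ) ≤ M := by exact_mod_cast hM
    have hsumt : Summable (tt f s) := h.summable_tt (by linarith)
    rw [abel]
    have h1 : FF f s = ∑ n ∈ Finset.range (M + 1), tt f s n + ∑' n : ℕ, tt f s (n + (M + 1)) := by
      unfold FF
      rw [hsumt.sum_add_tsum_nat_add]
    rw [h1]
    have e1 : ∑ n ∈ Finset.range (M + 1), tt f s n + ∑' n : ℕ, tt f s (n + (M + 1)) -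
        (SS f M * ((M : ℂ) + 1) ^ (-s) + ∑ n ∈ Finset.range (M + 1), tt f s n) =
        ∑' n : ℕ, tt f s (n + (M + 1)) - SS f M * ((M : ℂ) + 1) ^ (-s) := by ring
    rw [e1]
    refine (norm_sub_le _ _).trans ?_
    have h2 : ‖∑' n : ℕ, tt f s (n + (M + 1))‖ ≤ ‖s‖ * τ M := by
      have h3 : ∀ n : ℕ, ‖tt f s (n + (M + 1))‖ ≤
          ‖s‖ * (C * ((n + (M + 1) : ℕ) : ℝ) ^ (-1 - η)) := fun n => h.tt_le hη.le hs _
      have h4 : Summable fun n : ℕ => ‖s‖ * (C * ((n + (M + 1) : ℕ) : ℝ) ^ (-1 - η)) :=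
        ((summable_nat_add_iff (M + 1)).2 hsum).mul_left _
      calc ‖∑' n : ℕ, tt f s (n + (M + 1))‖ ≤
          ∑' n : ℕ, ‖s‖ * (C * ((n + (M + 1) : ℕ) : ℝ) ^ (-1 - η)) :=
            tsum_of_norm_bounded h4.hasSum h3
        _ = ‖s‖ * τ M := by rw [tsum_mul_left]
    have h5 : ‖SS f M * ((M : ℂ) + 1) ^ (-s)‖ ≤ C * 2 * (M : ℝ) ^ (-η) := by
      rw [norm_mul]
      have h6 : ‖((M : ℂ) + 1) ^ (-s)‖ ≤ 2 * (M : ℝ) ^ (β - η) := by
        have e2 : ((M : ℂ) + 1) = (((M : ℝ) + 1 : ℝ) : ℂ) := by push_cast; rfl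
        rw [e2, Complex.norm_cpow_eq_rpow_re_of_pos (by linarith), Complex.neg_re]
        rcases le_or_gt 0 s.re with hs0 | hs0
        · have h7 : ((M : ℝ) + 1) ^ (-s.re) ≤ (M : ℝ) ^ (-s.re) :=
            Real.rpow_le_rpow_of_nonpos hM0 (by linarith) (by linarith)
          have h8 : (M : ℝ) ^ (-s.re) ≤ (M : ℝ) ^ (β - η) :=
            Real.rpow_le_rpow_of_exponent_le hM1 (by linarith)
          have h9 : (0 : ℝ) ≤ (M : ℝ) ^ (β - η) := by positivity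
          linarith
        · have h7 : ((M : ℝ) + 1) ^ (-s.re) ≤ (2 * M : ℝ) ^ (-s.re) :=
            Real.rpow_le_rpow (by linarith) (by linarith) (by linarith)
          rw [Real.mul_rpow (by norm_num) hM0.le] at h7
          have h8 : (M : ℝ) ^ (-s.re) ≤ (M : ℝ) ^ (β - η) :=
            Real.rpow_le_rpow_of_exponent_le hM1 (by linarith)
          have h9 : (2 : ℝ) ^ (-s.re) ≤ 2 := by
            calc (2 : ℝ) ^ (-s.re) ≤ 2 ^ (1 : ℝ) :=
                  Real.rpow_le_rpow_of_exponent_le (by norm_num) (by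
                    have := h.β1
                    linarith)
              _ = 2 := Real.rpow_one 2
          calc ((M : ℝ) + 1) ^ (-s.re) ≤ 2 ^ (-s.re) * (M : ℝ) ^ (-s.re) := h7
            _ ≤ 2 * (M : ℝ) ^ (β - η) := mul_le_mul h9 h8 (by positivity) (by norm_num)
      calc ‖SS f M‖ * ‖((M : ℂ) + 1) ^ (-s)‖ ≤ (C * (M : ℝ) ^ (-β)) * (2 * (M : ℝ) ^ (β - η)) :=
            mul_le_mul (h.bound M hM) h6 (norm_nonneg _) (mul_nonneg h.C0 (by positivity))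
        _ = C * 2 * ((M : ℝ) ^ (-β) * (M : ℝ) ^ (β - η)) := by ring
        _ = C * 2 * (M : ℝ) ^ (-η) := by
            rw [← Real.rpow_add hM0]
            congr 2
            ring
    have h10 : 0 ≤ C * 2 * (M : ℝ) ^ (-η) := mul_nonneg (by linarith [h.C0]) (by positivity)
    have h11 := norm_nonneg s
    have h12 := hτnn M
    calc ‖∑' n : ℕ, tt f s (n + (M + 1))‖ + ‖SS f M * ((M : ℂ) + 1) ^ (-s)‖
        ≤ ‖s‖ * τ M + C * 2 * (M : ℝ) ^ (-η) := add_le_add h2 h5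
      _ ≤ (τ M + C * 2 * (M : ℝ) ^ (-η)) * (1 + ‖s‖) := by nlinarith

lemma Small.growth {f : ℕ → ℂ} {β C : ℝ} (h : Small f β C) {η : ℝ} (hη : 0 < η) :
    ∃ K : ℝ, 1 ≤ K ∧ ∀ s : ℂ, -β + η ≤ s.re → ‖FF f s‖ ≤ K * (1 + ‖s‖) := by
  obtain ⟨e, -, he⟩ := h.approx hη
  refine ⟨|e 1| + ‖f 1‖ + 1, by
    have := abs_nonneg (e 1)
    have := norm_nonneg (f 1)
    linarith, fun s hs => ?_⟩
  have h1 := he s hs 1 le_rfl
  rw [Finset.Icc_self, Finset.sum_singleton, Nat.cast_one, Complex.one_cpow, mul_one] at h1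
  have h2 : ‖FF f s‖ ≤ ‖FF f s - f 1‖ + ‖f 1‖ := by
    have := norm_add_le (FF f s - f 1) (f 1)
    rwa [sub_add_cancel] at this
  have h3 : e 1 * (1 + ‖s‖) ≤ |e 1| * (1 + ‖s‖) :=
    mul_le_mul_of_nonneg_right (le_abs_self _) (by positivity)
  have h4 := norm_nonneg s
  have h5 := norm_nonneg (f 1)
  have h6 := abs_nonneg (e 1)
  nlinarith

lemma Small.tendsto {f : ℕ → ℂ} {β C : ℝ} (h : Small f β C) {s : ℂ} (hs : -β < s.re) :
    Tendsto (fun M : ℕ => ∑ m ∈ Finset.Icc 1 M, f m * (m : ℂ) ^ (-s)) atTop (𝓝 (FF f s)) := by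
  obtain ⟨e, he0, he⟩ := h.approx (η := s.re + β) (by linarith)
  rw [tendsto_iff_norm_sub_tendsto_zero]
  have h1 : Tendsto (fun M => e M * (1 + ‖s‖)) atTop (𝓝 0) := by
    simpa using he0.mul_const (1 + ‖s‖)
  refine squeeze_zero' (Filter.Eventually.of_forall fun _ => norm_nonneg _) ?_ h1
  filter_upwards [Filter.eventually_ge_atTop 1] with M hM
  rw [norm_sub_rev]
  exact he s (by linarith) M hM

lemma sum_sq_le (M : ℕ) : ∑ m ∈ Finset.Icc 2 M, (1 : ℝ) / (m : ℝ) ^ 2 ≤ 1 := by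
  have h : ∀ M : ℕ, 1 ≤ M → ∑ m ∈ Finset.Icc 2 M, (1 : ℝ) / (m : ℝ) ^ 2 ≤ 1 - 1 / M := by
    intro M hM
    induction M, hM using Nat.le_induction with
    | base => simp
    | succ k hk ih =>
      rw [Finset.sum_Icc_succ_top (by omega)]
      have hk0 : (0 : ℝ) < k := by exact_mod_cast hk
      have h1 : (1 : ℝ) / ((k + 1 : ℕ) : ℝ) ^ 2 ≤ 1 / k - 1 / ((k + 1 : ℕ) : ℝ) := by
        push_cast
        rw [div_sub_div _ _ hk0.ne' (by positivity), div_le_div_iff₀ (by positivity) (by positivity)]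
        nlinarith
      linarith
  rcases Nat.eq_zero_or_pos M with rfl | hM
  · simp
  · have h1 := h M hM
    have : (0 : ℝ) ≤ 1 / M := by positivity
    linarith

lemma Small.near_one {f : ℕ → ℂ} {β C : ℝ} (h : Small f β C) (h1 : f 1 = 1)
    (hf : ∀ n : ℕ, 1 ≤ n → ‖f n‖ ≤ 1) {s : ℂ} (hs : 3 ≤ s.re) : ‖FF f s - 1‖ ≤ 1 / 2 := by
  have hβ := h.β0
  have ht := h.tendsto (s := s) (by linarith)
  have ht' : Tendsto (fun M : ℕ => ‖∑ m ∈ Finset.Icc 1 M, f m * (m : ℂ) ^ (-s) - 1‖) atTop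
      (𝓝 ‖FF f s - 1‖) := (ht.sub_const 1).norm
  refine le_of_tendsto ht' ?_
  filter_upwards [Filter.eventually_ge_atTop 1] with M hM
  rw [← Finset.add_sum_Ioc_eq_sum_Icc hM, Nat.cast_one, Complex.one_cpow, h1, mul_one,
    add_sub_cancel_left]
  refine (norm_sum_le _ _).trans ?_
  have h2 : ∀ m ∈ Finset.Ioc 1 M, ‖f m * (m : ℂ) ^ (-s)‖ ≤ 1 / 2 * (1 / (m : ℝ) ^ 2) := by
    intro m hm
    have hm2 : 2 ≤ m := (Finset.mem_Ioc.1 hm).1
    have hm2' : (2 : ℝ) ≤ m := by exact_mod_cast hm2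
    have hm0 : (0 : ℝ) < m := by linarith
    rw [norm_mul]
    have e1 : ‖(m : ℂ) ^ (-s)‖ ≤ 1 / 2 * (1 / (m : ℝ) ^ 2) := by
      have e2 : (m : ℂ) = ((m : ℝ) : ℂ) := by push_cast; rfl
      rw [e2, Complex.norm_cpow_eq_rpow_re_of_pos hm0, Complex.neg_re]
      calc (m : ℝ) ^ (-s.re) ≤ (m : ℝ) ^ (-3 : ℝ) :=
            Real.rpow_le_rpow_of_exponent_le (by linarith) (by linarith)
        _ = 1 / (m : ℝ) ^ 3 := by
            rw [Real.rpow_neg hm0.le, one_div]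
            congr 1
            exact_mod_cast Real.rpow_natCast (m : ℝ) 3
        _ ≤ 1 / 2 * (1 / (m : ℝ) ^ 2) := by
            rw [one_div_mul_one_div, div_le_div_iff₀ (by positivity) (by positivity)]
            have : (m : ℝ) ^ 3 = m * m ^ 2 := by ring
            rw [this]
            nlinarith [sq_nonneg (m : ℝ)]
    calc ‖f m‖ * ‖(m : ℂ) ^ (-s)‖ ≤ 1 * (1 / 2 * (1 / (m : ℝ) ^ 2)) :=
          mul_le_mul (hf m (by omega)) e1 (norm_nonneg _) (by norm_num)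
      _ = _ := one_mul _
  refine (Finset.sum_le_sum h2).trans ?_
  rw [← Finset.mul_sum]
  have h3 : Finset.Ioc 1 M = Finset.Icc 2 M := by
    ext x
    simp only [Finset.mem_Ioc, Finset.mem_Icc]
    omega
  rw [h3]
  have := sum_sq_le M
  linarith

end Pool.Agent.Helper55.MZ
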