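import Pool.Agent.Helper55.MZ.Zeros

/-!
# Completely multiplicative functions with small partial sums: the number of zeros
-/

set_option autoImplicit false
open Filter Topology Complex Set

namespace Pool.Agent.Helper55.MZ

theorem main (f : ℕ → ℂ) (hf1 : f 1 = 1)
    (hmul : ∀ m n : ℕ, 0 < m → 0 < n → f (m * n) = f m * f n)
    (β C : ℝ) (hβ0 : 0 < β) (hβ1 : β ≤ 1)
    (hS : ∀ N : ℕ, 1 ≤ N → ‖∑ n ∈ Finset.Icc 1 N, f n‖ ≤ C * (N : ℝ) ^ (-β)) :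
    ∃ F : ℂ → ℂ, DifferentiableOn ℂ F {s : ℂ | -β < s.re} ∧
      (∀ s : ℂ, -β < s.re →
        Tendsto (fun N : ℕ => ∑ n ∈ Finset.Icc 1 N, f n * (n : ℂ) ^ (-s)) atTop (𝓝 (F s))) ∧
      ∀ σ : ℝ, -β < σ →
        (σ < -(1 / 2) ∨
          ∃ σ' : ℝ, σ < σ' ∧ ¬ Summable fun n : ℕ => ‖f n‖ ^ 2 * (n : ℝ) ^ (-2 * σ')) →
        ∃ ϑ : ℝ, ϑ < 1 ∧ ∀ T₀ : ℝ, ∃ T : ℝ, T₀ ≤ T ∧ 1 < T ∧ ∃ Z : Finset ℂ,
          T * Real.exp (-(Real.log T) ^ ϑ) ≤ Z.card ∧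
          ∀ s ∈ Z, F s = 0 ∧ σ < s.re ∧ 0 < s.im ∧ s.im < T := by
  have hC : 0 ≤ C := by
    have h1 := hS 1 le_rfl
    rw [Finset.Icc_self, Finset.sum_singleton, hf1, norm_one, Nat.cast_one, Real.one_rpow,
      mul_one] at h1
    linarith
  have h : Small f β C := ⟨hβ0, hβ1, hC, hS⟩
  have hf : CMul f := ⟨hf1, hmul⟩
  refine ⟨FF f, h.differentiableOn, fun s hs => h.tendsto hs, fun σ hσ hcase => ?_⟩
  rcases hcase with hσ2 | ⟨σ', hσσ', hns⟩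
  · exact h.many_zeros hf hσ (b := (σ - 1 / 2) / 2) (by linarith)
      (h.mean_square_diverges hf (by linarith))
  · exact h.many_zeros hf hσ hσσ' hns

end Pool.Agent.Helper55.MZ
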