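import Mathlib

/-!
# A Gaussian mean value inequality for generalised Dirichlet series
-/

set_option autoImplicit false
open MeasureTheory Filter Topology Complex

namespace Pool.Agent.Helper55.MZ

/-- `n ^ (-i u)` -/
noncomputable def ee (n : ℕ) (u : ℝ) : ℂ := cexp (-((Real.log n * u : ℝ) : ℂ) * I)

lemma norm_ee (n : ℕ) (u : ℝ) : ‖ee n u‖ = 1 := by
  unfold ee
  rw [neg_mul, ← neg_mul, ← ofReal_neg, Complex.norm_exp_ofReal_mul_I]

lemma continuous_ee (n : ℕ) : Continuous (ee n) := by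
  unfold ee
  fun_prop

lemma gauss {b : ℝ} (hb : 0 < b) (c : ℝ) :
    ∫ u : ℝ, cexp (-((c * u : ℝ) : ℂ) * I) * (Real.exp (-b * u ^ 2) : ℂ) =
      ((Real.sqrt (Real.pi / b) * Real.exp (-(c ^ 2) / (4 * b)) : ℝ) : ℂ) := by
  have h := integral_cexp_quadratic (b := ((-b : ℝ) : ℂ)) (by simpa using hb) (-((c : ℂ) * I)) 0
  have e1 : (fun u : ℝ => cexp (-((c * u : ℝ) : ℂ) * I) * (Real.exp (-b * u ^ 2) : ℂ)) =
      fun x : ℝ => cexp (((-b : ℝ) : ℂ) * x ^ 2 + -((c : ℂ) * I) * x + 0) := by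
    funext u
    rw [Complex.ofReal_exp, ← Complex.exp_add]
    congr 1
    push_cast
    ring
  rw [e1, h]
  push_cast
  have e2 : (Real.pi : ℂ) / - -(b : ℂ) = ((Real.pi / b : ℝ) : ℂ) := by push_cast; rw [neg_neg]
  rw [e2]
  have e3 : (((Real.pi / b : ℝ) : ℂ)) ^ (1 / 2 : ℂ) = ((Real.sqrt (Real.pi / b) : ℝ) : ℂ) := by
    rw [Real.sqrt_eq_rpow, Complex.ofReal_cpow (by positivity)]
    push_cast
    rfl
  rw [e3]
  congr 2
  have hbc : (b : ℂ) ≠ 0 := by exact_mod_cast hb.ne'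
  have hI : (-((c : ℂ) * I)) ^ 2 = -(c : ℂ) ^ 2 := by
    rw [neg_sq, mul_pow, I_sq]; ring
  rw [hI]
  field_simp
  ring

lemma ee_mul_conj (m n : ℕ) (u : ℝ) :
    ee m u * (starRingEnd ℂ) (ee n u) =
      cexp (-(((Real.log m - Real.log n) * u : ℝ) : ℂ) * I) := by
  unfold ee
  rw [← Complex.exp_conj, ← Complex.exp_add]
  congr 1
  simp only [map_mul, map_neg, conj_ofReal, conj_I]
  push_cast
  ring

lemma integrable_gauss {b : ℝ} (hb : 0 < b) : Integrable (fun u : ℝ => Real.exp (-b * u ^ 2)) :=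
  integrable_exp_neg_mul_sq hb

/-- polynomial times Gaussian is dominated by a wider Gaussian -/
lemma poly_le {b : ℝ} (hb : 0 < b) (hb1 : b ≤ 1) (u : ℝ) :
    (1 + |u|) ^ 2 ≤ 10 / b * Real.exp (b / 4 * u ^ 2) := by
  have h1 : 1 + b / 4 * u ^ 2 ≤ Real.exp (b / 4 * u ^ 2) := by
    have := Real.add_one_le_exp (b / 4 * u ^ 2)
    linarith
  have h2 : (1 + |u|) ^ 2 ≤ 2 + 2 * u ^ 2 := by
    have := sq_abs u
    nlinarith [sq_nonneg (1 - |u|)]
  have h3 : 10 / b * (1 + b / 4 * u ^ 2) = 10 / b + 5 / 2 * u ^ 2 := by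
    field_simp
    ring
  have h4 : (10 : ℝ) ≤ 10 / b := by
    rw [le_div_iff₀ hb]; linarith
  have h5 : 10 / b * (1 + b / 4 * u ^ 2) ≤ 10 / b * Real.exp (b / 4 * u ^ 2) :=
    mul_le_mul_of_nonneg_left h1 (by positivity)
  nlinarith [sq_nonneg u]

lemma offdiag {X m n : ℕ} (hX : 3072 ≤ X) (hm : 1 ≤ m) (hn : 1 ≤ n) (hnX : n ≤ X)
    (hmn : m ≠ n) :
    (X : ℝ) * (m * (m + 1)) ≤ Real.exp ((Real.log m - Real.log n) ^ 2 * (X : ℝ) ^ 4 / 4) := by
  have hX' : (3072 : ℝ) ≤ X := by exact_mod_cast hX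
  have hm' : (1 : ℝ) ≤ m := by exact_mod_cast hm
  have hn' : (1 : ℝ) ≤ n := by exact_mod_cast hn
  have hnX' : (n : ℝ) ≤ X := by exact_mod_cast hnX
  rcases le_or_gt m (2 * X) with h | h
  · -- `m ≤ 2 X`
    have hm2 : (m : ℝ) ≤ 2 * X := by exact_mod_cast h
    have key : ∀ p q : ℕ, 1 ≤ p → p < q → (q : ℝ) ≤ 2 * X →
        1 / (2 * (X : ℝ)) ≤ Real.log q - Real.log p := by
      intro p q hp hpq hq
      have hp' : (1 : ℝ) ≤ p := by exact_mod_cast hp
      have hpq' : (p : ℝ) + 1 ≤ q := by exact_mod_cast hpq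
      have hq0 : (0 : ℝ) < q := by linarith
      have hp0 : (0 : ℝ) < p := by linarith
      rw [← Real.log_div hq0.ne' hp0.ne']
      have h1 := Real.one_sub_inv_le_log_of_pos (show (0 : ℝ) < q / p by positivity)
      rw [inv_div] at h1
      refine le_trans ?_ h1
      rw [div_le_iff₀ (by positivity)]
      have h2 : (1 - (p : ℝ) / q) = (q - p) / q := by field_simp
      rw [h2, div_mul_eq_mul_div, le_div_iff₀ hq0]
      nlinarith
    have hlog : 1 / (2 * (X : ℝ)) ≤ |Real.log m - Real.log n| := by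
      rcases lt_or_gt_of_ne hmn with h1 | h1
      · have := key m n hm h1 (by linarith)
        rw [abs_sub_comm]
        exact this.trans (le_abs_self _)
      · exact (key n m hn h1 hm2).trans (le_abs_self _)
    have hsq : (X : ℝ) ^ 2 / 16 ≤ (Real.log m - Real.log n) ^ 2 * (X : ℝ) ^ 4 / 4 := by
      have h1 : (1 / (2 * (X : ℝ))) ^ 2 ≤ (Real.log m - Real.log n) ^ 2 := by
        rw [← sq_abs (Real.log m - Real.log n)]
        exact pow_le_pow_left₀ (by positivity) hlog 2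
      have h2 : (X : ℝ) ^ 2 / 16 = (1 / (2 * (X : ℝ))) ^ 2 * (X : ℝ) ^ 4 / 4 := by
        field_simp
        ring
      rw [h2]
      gcongr
    refine le_trans ?_ (Real.exp_le_exp.2 hsq)
    have h3 := Real.quadratic_le_exp_of_nonneg (show (0 : ℝ) ≤ (X : ℝ) ^ 2 / 16 by positivity)
    refine le_trans ?_ h3
    have h4 : (m : ℝ) * (m + 1) ≤ 6 * X ^ 2 := by nlinarith
    have h5 : (X : ℝ) * (m * (m + 1)) ≤ X * (6 * X ^ 2) :=
      mul_le_mul_of_nonneg_left h4 (by linarith)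
    have h6 : (X : ℝ) * (6 * X ^ 2) ≤ ((X : ℝ) ^ 2 / 16) ^ 2 / 2 := by
      have : ((X : ℝ) ^ 2 / 16) ^ 2 / 2 = X ^ 3 * (X / 512) := by ring
      rw [this]
      have h7 : (X : ℝ) * (6 * X ^ 2) = X ^ 3 * 6 := by ring
      rw [h7]
      refine mul_le_mul_of_nonneg_left ?_ (by positivity)
      linarith
    nlinarith [sq_nonneg (X : ℝ)]
  · -- `m > 2 X`
    have hm2 : 2 * (X : ℝ) < m := by exact_mod_cast h
    have hX0 : (0 : ℝ) < X := by linarith
    have hm0 : (0 : ℝ) < m := by linarith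
    have hn0 : (0 : ℝ) < n := by linarith
    set L : ℝ := Real.log m - Real.log n with hL
    have hL2 : 1 / 2 ≤ L := by
      have h1 : Real.log 2 ≤ L := by
        rw [hL, ← Real.log_div hm0.ne' hn0.ne']
        apply Real.log_le_log (by norm_num)
        rw [le_div_iff₀ hn0]
        nlinarith
      have := Real.log_two_gt_d9
      linarith
    have hlogn : Real.log n ≤ X := by
      have h1 := Real.log_le_sub_one_of_pos hn0
      linarith
    have hlogX : Real.log X ≤ X := by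
      have h1 := Real.log_le_sub_one_of_pos hX0
      linarith
    have h1 : (X : ℝ) * (m * (m + 1)) ≤ Real.exp (3 * X + 2 * L + 1) := by
      have e1 : (X : ℝ) * (m * (m + 1)) ≤ X * (m * m) * 2 := by nlinarith
      refine e1.trans ?_
      have e2 : Real.exp (Real.log X + (Real.log m + Real.log m) + Real.log 2) =
          X * (m * m) * 2 := by
        rw [Real.exp_add, Real.exp_add, Real.exp_add, Real.exp_log hX0, Real.exp_log hm0,
          Real.exp_log (by norm_num)]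
      rw [← e2]
      apply Real.exp_le_exp.2
      have e3 : Real.log m = L + Real.log n := by rw [hL]; ring
      have := Real.log_two_lt_d9
      linarith
    refine h1.trans (Real.exp_le_exp.2 ?_)
    have h2 : L * (X : ℝ) ^ 4 / 8 ≤ L ^ 2 * (X : ℝ) ^ 4 / 4 := by
      have : L ^ 2 * (X : ℝ) ^ 4 / 4 - L * (X : ℝ) ^ 4 / 8 = L * X ^ 4 / 4 * (L - 1 / 2) := by ring
      have h3 : 0 ≤ L * X ^ 4 / 4 * (L - 1 / 2) := by
        apply mul_nonneg
        · have : 0 ≤ L := by linarith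
          positivity
        · linarith
      linarith
    refine le_trans ?_ h2
    have h4 : (X : ℝ) ^ 4 ≥ 3072 ^ 3 * X := by
      have : (X : ℝ) ^ 4 = X ^ 3 * X := by ring
      rw [this]
      have h5 : (3072 : ℝ) ^ 3 ≤ X ^ 3 := pow_le_pow_left₀ (by norm_num) hX' 3
      nlinarith
    nlinarith

/-- partial sums -/
noncomputable def PP (a : ℕ → ℂ) (M : ℕ) (u : ℝ) : ℂ := ∑ m ∈ Finset.Icc 1 M, a m * ee m u

lemma continuous_PP (a : ℕ → ℂ) (M : ℕ) : Continuous (PP a M) := by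
  unfold PP
  refine continuous_finsetSum _ fun m _ => ?_
  exact continuous_const.mul (continuous_ee m)

lemma norm_PP_le {a : ℕ → ℂ} (ha : ∀ n, 1 ≤ n → ‖a n‖ ≤ 1) (M : ℕ) (u : ℝ) :
    ‖PP a M u‖ ≤ M := by
  unfold PP
  refine (norm_sum_le _ _).trans ?_
  calc ∑ m ∈ Finset.Icc 1 M, ‖a m * ee m u‖ ≤ ∑ m ∈ Finset.Icc 1 M, (1 : ℝ) := by
        refine Finset.sum_le_sum fun m hm => ?_
        rw [norm_mul, norm_ee, mul_one]
        exact ha m (Finset.mem_Icc.1 hm).1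
    _ = M := by simp

lemma integrable_const_mul_gauss {b : ℝ} (hb : 0 < b) (c : ℝ) (k : ℂ) :
    Integrable (fun u : ℝ => k * (cexp (-((c * u : ℝ) : ℂ) * I) * (Real.exp (-b * u ^ 2) : ℂ))) := by
  apply Integrable.const_mul
  refine ((integrable_gauss hb).ofReal (𝕜 := ℂ)).bdd_mul (c := 1) ?_ ?_
  · exact (by fun_prop : Continuous fun u : ℝ => cexp (-((c * u : ℝ) : ℂ) * I)).aestronglyMeasurable
  · refine Filter.Eventually.of_forall fun u => ?_
    rw [← ofReal_neg, Complex.norm_exp_ofReal_mul_I]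

lemma int_pair {b : ℝ} (hb : 0 < b) (a : ℕ → ℂ) (M X : ℕ) :
    ∫ u : ℝ, PP a M u * (starRingEnd ℂ) (PP a X u) * (Real.exp (-b * u ^ 2) : ℂ) =
      (Real.sqrt (Real.pi / b) : ℂ) * ∑ m ∈ Finset.Icc 1 M, ∑ n ∈ Finset.Icc 1 X,
        a m * (starRingEnd ℂ) (a n) *
          (Real.exp (-((Real.log m - Real.log n) ^ 2) / (4 * b)) : ℂ) := by
  have e1 : ∀ u : ℝ, PP a M u * (starRingEnd ℂ) (PP a X u) * (Real.exp (-b * u ^ 2) : ℂ) =
      ∑ m ∈ Finset.Icc 1 M, ∑ n ∈ Finset.Icc 1 X, a m * (starRingEnd ℂ) (a n) *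
        (cexp (-(((Real.log m - Real.log n) * u : ℝ) : ℂ) * I) * (Real.exp (-b * u ^ 2) : ℂ)) := by
    intro u
    unfold PP
    rw [map_sum, Finset.sum_mul_sum, Finset.sum_mul]
    refine Finset.sum_congr rfl fun m _ => ?_
    rw [Finset.sum_mul]
    refine Finset.sum_congr rfl fun n _ => ?_
    rw [map_mul, ← ee_mul_conj]
    ring
  rw [integral_congr_ae (Filter.Eventually.of_forall e1)]
  rw [integral_finsetSum]
  · rw [Finset.mul_sum]
    refine Finset.sum_congr rfl fun m _ => ?_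
    rw [integral_finsetSum]
    · rw [Finset.mul_sum]
      refine Finset.sum_congr rfl fun n _ => ?_
      rw [integral_const_mul, gauss hb]
      push_cast
      ring
    · intro n _
      exact integrable_const_mul_gauss hb _ _
  · intro m _
    refine integrable_finsetSum _ fun n _ => ?_
    exact integrable_const_mul_gauss hb _ _

lemma sum_tele (M : ℕ) : ∑ m ∈ Finset.Icc 1 M, (1 : ℝ) / (m * (m + 1)) ≤ 1 := by
  have h : ∀ M : ℕ, ∑ m ∈ Finset.Icc 1 M, (1 : ℝ) / (m * (m + 1)) = 1 - 1 / (M + 1) := by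
    intro M
    induction M with
    | zero => simp
    | succ k ih =>
      rw [Finset.sum_Icc_succ_top (by omega), ih]
      push_cast
      field_simp
      ring
  rw [h]
  have : (0 : ℝ) ≤ 1 / ((M : ℝ) + 1) := by positivity
  linarith

lemma pair_bound {a : ℕ → ℂ} (ha : ∀ n, 1 ≤ n → ‖a n‖ ≤ 1) {M X : ℕ} (hX : 3072 ≤ X)
    (hXM : X ≤ M) :
    ‖(∑ m ∈ Finset.Icc 1 M, ∑ n ∈ Finset.Icc 1 X, a m * (starRingEnd ℂ) (a n) *
        (Real.exp (-((Real.log m - Real.log n) ^ 2) / (4 * (1 / (X : ℝ) ^ 4))) : ℂ)) -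
      ((∑ n ∈ Finset.Icc 1 X, ‖a n‖ ^ 2 : ℝ) : ℂ)‖ ≤ 1 := by
  have hX0 : (0 : ℝ) < X := by
    have : (3072 : ℝ) ≤ X := by exact_mod_cast hX
    linarith
  rw [Finset.sum_comm, ofReal_sum, ← Finset.sum_sub_distrib]
  refine (norm_sum_le _ _).trans ?_
  have key : ∀ n ∈ Finset.Icc 1 X, ‖(∑ m ∈ Finset.Icc 1 M, a m * (starRingEnd ℂ) (a n) *
        (Real.exp (-((Real.log m - Real.log n) ^ 2) / (4 * (1 / (X : ℝ) ^ 4))) : ℂ)) -
      ((‖a n‖ ^ 2 : ℝ) : ℂ)‖ ≤ 1 / X := by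
    intro n hn
    obtain ⟨hn1, hnX⟩ := Finset.mem_Icc.1 hn
    have hnM : n ∈ Finset.Icc 1 M := Finset.mem_Icc.2 ⟨hn1, hnX.trans hXM⟩
    rw [← Finset.add_sum_erase _ _ hnM]
    have e1 : a n * (starRingEnd ℂ) (a n) *
        (Real.exp (-((Real.log n - Real.log n) ^ 2) / (4 * (1 / (X : ℝ) ^ 4))) : ℂ) =
        ((‖a n‖ ^ 2 : ℝ) : ℂ) := by
      rw [sub_self, Complex.mul_conj, Complex.normSq_eq_norm_sq]
      simp
    rw [e1, add_sub_cancel_left]
    refine (norm_sum_le _ _).trans ?_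
    have h1 : ∀ m ∈ (Finset.Icc 1 M).erase n, ‖a m * (starRingEnd ℂ) (a n) *
        (Real.exp (-((Real.log m - Real.log n) ^ 2) / (4 * (1 / (X : ℝ) ^ 4))) : ℂ)‖ ≤
        1 / X * (1 / (m * (m + 1))) := by
      intro m hm
      obtain ⟨hmn, hm⟩ := Finset.mem_erase.1 hm
      obtain ⟨hm1, -⟩ := Finset.mem_Icc.1 hm
      have hm1' : (1 : ℝ) ≤ m := by exact_mod_cast hm1
      rw [norm_mul, norm_mul, RCLike.norm_conj, Complex.norm_real, Real.norm_eq_abs, Real.abs_exp]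
      have e2 : -((Real.log m - Real.log n) ^ 2) / (4 * (1 / (X : ℝ) ^ 4)) =
          -((Real.log m - Real.log n) ^ 2 * (X : ℝ) ^ 4 / 4) := by
        field_simp
      rw [e2, Real.exp_neg]
      have h2 := offdiag hX hm1 hn1 hnX hmn
      have h3 : (Real.exp ((Real.log m - Real.log n) ^ 2 * (X : ℝ) ^ 4 / 4))⁻¹ ≤
          ((X : ℝ) * (m * (m + 1)))⁻¹ := inv_anti₀ (by positivity) h2
      have h4 : ‖a m‖ * ‖a n‖ ≤ 1 := mul_le_one₀ (ha m hm1) (norm_nonneg _) (ha n hn1)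
      calc ‖a m‖ * ‖a n‖ * (Real.exp ((Real.log m - Real.log n) ^ 2 * (X : ℝ) ^ 4 / 4))⁻¹
          ≤ 1 * ((X : ℝ) * (m * (m + 1)))⁻¹ := by
            apply mul_le_mul h4 h3 (by positivity) (by norm_num)
        _ = 1 / X * (1 / (m * (m + 1))) := by
            field_simp
    refine (Finset.sum_le_sum h1).trans ?_
    rw [← Finset.mul_sum]
    have h5 : ∑ m ∈ (Finset.Icc 1 M).erase n, (1 : ℝ) / (m * (m + 1)) ≤ 1 := by
      refine le_trans ?_ (sum_tele M)
      refine Finset.sum_le_sum_of_subset_of_nonneg (Finset.erase_subset _ _) ?_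
      intro m _ _
      positivity
    calc 1 / (X : ℝ) * ∑ m ∈ (Finset.Icc 1 M).erase n, (1 : ℝ) / (m * (m + 1))
        ≤ 1 / X * 1 := mul_le_mul_of_nonneg_left h5 (by positivity)
      _ = 1 / X := mul_one _
  refine (Finset.sum_le_sum key).trans ?_
  rw [Finset.sum_const, Nat.card_Icc, nsmul_eq_mul]
  push_cast
  rw [mul_one_div, div_self hX0.ne']

/-- The mean value inequality. -/
theorem mean_value {a : ℕ → ℂ} (ha : ∀ n, 1 ≤ n → ‖a n‖ ≤ 1) {Φ : ℝ → ℂ} (hΦ : Continuous Φ)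
    {ε : ℕ → ℝ} (hε : Tendsto ε atTop (𝓝 0))
    (hK : ∀ M u, 1 ≤ M → ‖Φ u - PP a M u‖ ≤ ε M * (1 + |u|)) {X : ℕ} (hX : 3072 ≤ X) :
    Real.sqrt (Real.pi / (1 / (X : ℝ) ^ 4)) * (∑ n ∈ Finset.Icc 1 X, ‖a n‖ ^ 2 - 3) ≤
      ∫ u : ℝ, ‖Φ u‖ ^ 2 * Real.exp (-(1 / (X : ℝ) ^ 4) * u ^ 2) := by
  have hX' : (3072 : ℝ) ≤ X := by exact_mod_cast hX
  have hX0 : (0 : ℝ) < X := by linarith
  set b : ℝ := 1 / (X : ℝ) ^ 4 with hb
  have hb0 : 0 < b := by positivity
  have hb1 : b ≤ 1 := by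
    rw [hb, div_le_one (by positivity)]
    exact one_le_pow₀ (by linarith)
  set R : ℝ := Real.sqrt (Real.pi / b) with hR
  set B : ℝ := ∑ n ∈ Finset.Icc 1 X, ‖a n‖ ^ 2 with hB
  have hR0 : 0 ≤ R := Real.sqrt_nonneg _
  -- integrability
  have hw : ∀ u : ℝ, (1 + |u|) ^ 2 * Real.exp (-b * u ^ 2) ≤
      10 / b * Real.exp (-(b / 2) * u ^ 2) := by
    intro u
    have h1 := poly_le hb0 hb1 u
    have h2 : Real.exp (b / 4 * u ^ 2) * Real.exp (-b * u ^ 2) ≤ Real.exp (-(b / 2) * u ^ 2) := by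
      rw [← Real.exp_add]
      apply Real.exp_le_exp.2
      nlinarith [sq_nonneg u]
    calc (1 + |u|) ^ 2 * Real.exp (-b * u ^ 2)
        ≤ 10 / b * Real.exp (b / 4 * u ^ 2) * Real.exp (-b * u ^ 2) :=
          mul_le_mul_of_nonneg_right h1 (Real.exp_pos _).le
      _ = 10 / b * (Real.exp (b / 4 * u ^ 2) * Real.exp (-b * u ^ 2)) := by ring
      _ ≤ _ := mul_le_mul_of_nonneg_left h2 (by positivity)
  have hint2 : Integrable (fun u : ℝ => (1 + |u|) ^ 2 * Real.exp (-b * u ^ 2)) := by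
    refine Integrable.mono' (((integrable_gauss (show 0 < b / 2 by positivity))).const_mul (10 / b))
      ?_ ?_
    · exact (by fun_prop : Continuous fun u : ℝ =>
        (1 + |u|) ^ 2 * Real.exp (-b * u ^ 2)).aestronglyMeasurable
    · refine Filter.Eventually.of_forall fun u => ?_
      rw [Real.norm_eq_abs, abs_of_nonneg (by positivity)]
      exact hw u
  have hdom : ∀ (g : ℝ → ℂ) (K : ℝ), Continuous g → (∀ u, ‖g u‖ ≤ K * (1 + |u|) ^ 2) →
      Integrable (fun u : ℝ => g u * (Real.exp (-b * u ^ 2) : ℂ)) := by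
    intro g K hg hgK
    refine Integrable.mono' (hint2.const_mul K) ?_ ?_
    · exact (hg.mul (by fun_prop)).aestronglyMeasurable
    · refine Filter.Eventually.of_forall fun u => ?_
      rw [norm_mul, Complex.norm_real, Real.norm_eq_abs, Real.abs_exp, ← mul_assoc]
      exact mul_le_mul_of_nonneg_right (hgK u) (Real.exp_pos _).le
  have hone : ∀ u : ℝ, (1 : ℝ) ≤ (1 + |u|) ^ 2 := by
    intro u
    have := abs_nonneg u
    nlinarith
  have hone' : ∀ u : ℝ, 1 + |u| ≤ (1 + |u|) ^ 2 := by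
    intro u
    have := abs_nonneg u
    nlinarith
  set D : ℝ → ℂ := PP a X with hD
  have hDc : Continuous D := continuous_PP a X
  have hDn : ∀ u, ‖D u‖ ≤ X := norm_PP_le ha X
  have hDconj : Continuous fun u => (starRingEnd ℂ) (D u) := Complex.continuous_conj.comp hDc
  -- a bound for Φ
  have hΦb : ∀ u, ‖Φ u‖ ≤ (1 + |ε 1|) * (1 + |u|) := by
    intro u
    have h1 := hK 1 u le_rfl
    have h2 := norm_PP_le ha 1 u
    have h3 : ‖Φ u‖ ≤ ‖Φ u - PP a 1 u‖ + ‖PP a 1 u‖ := by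
      have := norm_add_le (Φ u - PP a 1 u) (PP a 1 u)
      rwa [sub_add_cancel] at this
    have h4 : ε 1 * (1 + |u|) ≤ |ε 1| * (1 + |u|) :=
      mul_le_mul_of_nonneg_right (le_abs_self _) (by positivity)
    push_cast at h2
    have := abs_nonneg u
    nlinarith
  -- the three integrals
  have iΦ : Integrable (fun u : ℝ => ((‖Φ u‖ ^ 2 : ℝ) : ℂ) * (Real.exp (-b * u ^ 2) : ℂ)) := by
    refine hdom _ ((1 + |ε 1|) ^ 2) (by fun_prop) fun u => ?_
    rw [Complex.norm_real, Real.norm_eq_abs, abs_of_nonneg (by positivity), ← mul_pow]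
    exact pow_le_pow_left₀ (norm_nonneg _) (hΦb u) 2
  have iΦD : Integrable (fun u : ℝ => Φ u * (starRingEnd ℂ) (D u) *
      (Real.exp (-b * u ^ 2) : ℂ)) := by
    refine hdom _ ((1 + |ε 1|) * X) (hΦ.mul hDconj) fun u => ?_
    rw [norm_mul, RCLike.norm_conj]
    calc ‖Φ u‖ * ‖D u‖ ≤ ((1 + |ε 1|) * (1 + |u|)) * X :=
          mul_le_mul (hΦb u) (hDn u) (norm_nonneg _) (by positivity)
      _ = (1 + |ε 1|) * X * (1 + |u|) := by ring
      _ ≤ (1 + |ε 1|) * X * (1 + |u|) ^ 2 :=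
          mul_le_mul_of_nonneg_left (hone' u) (by positivity)
  have iDD : Integrable (fun u : ℝ => D u * (starRingEnd ℂ) (D u) *
      (Real.exp (-b * u ^ 2) : ℂ)) := by
    refine hdom _ ((X : ℝ) * X) (hDc.mul hDconj) fun u => ?_
    rw [norm_mul, RCLike.norm_conj]
    calc ‖D u‖ * ‖D u‖ ≤ (X : ℝ) * X := mul_le_mul (hDn u) (hDn u) (norm_nonneg _) (by positivity)
      _ ≤ (X : ℝ) * X * (1 + |u|) ^ 2 := le_mul_of_one_le_right (by positivity) (hone u)
  -- lower bound for the real part of `∫ Φ conj D w`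
  have hZ : R * (B - 1) ≤ (∫ u : ℝ, Φ u * (starRingEnd ℂ) (D u) *
      (Real.exp (-b * u ^ 2) : ℂ)).re := by
    have hM : ∀ M : ℕ, X ≤ M → R * (B - 1) ≤ (∫ u : ℝ, Φ u * (starRingEnd ℂ) (D u) *
        (Real.exp (-b * u ^ 2) : ℂ)).re +
        ε M * (X * ∫ u : ℝ, (1 + |u|) ^ 2 * Real.exp (-b * u ^ 2)) := by
      intro M hXM
      have hM1 : 1 ≤ M := by omega
      have iP : Integrable (fun u : ℝ => PP a M u * (starRingEnd ℂ) (D u) *
          (Real.exp (-b * u ^ 2) : ℂ)) := by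
        refine hdom _ ((M : ℝ) * X) ((continuous_PP a M).mul hDconj) fun u => ?_
        rw [norm_mul, RCLike.norm_conj]
        calc ‖PP a M u‖ * ‖D u‖ ≤ (M : ℝ) * X :=
              mul_le_mul (norm_PP_le ha M u) (hDn u) (norm_nonneg _) (by positivity)
          _ ≤ (M : ℝ) * X * (1 + |u|) ^ 2 := le_mul_of_one_le_right (by positivity) (hone u)
      have h1 := int_pair hb0 a M X
      have h2 := pair_bound ha hX hXM
      rw [← hb, ← hB] at h2
      set S : ℂ := ∑ m ∈ Finset.Icc 1 M, ∑ n ∈ Finset.Icc 1 X, a m * (starRingEnd ℂ) (a n) *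
        (Real.exp (-((Real.log m - Real.log n) ^ 2) / (4 * b)) : ℂ) with hS
      have h3 : B - 1 ≤ S.re := by
        have h4 := (Complex.abs_re_le_norm (S - (B : ℂ))).trans h2
        rw [Complex.sub_re, Complex.ofReal_re] at h4
        have := (abs_le.1 h4).1
        linarith
      have h4 : (∫ u : ℝ, PP a M u * (starRingEnd ℂ) (D u) *
          (Real.exp (-b * u ^ 2) : ℂ)).re = R * S.re := by
        rw [hD, h1, ← hR, Complex.re_ofReal_mul]
      have h5 : ‖(∫ u : ℝ, PP a M u * (starRingEnd ℂ) (D u) * (Real.exp (-b * u ^ 2) : ℂ)) -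
          ∫ u : ℝ, Φ u * (starRingEnd ℂ) (D u) * (Real.exp (-b * u ^ 2) : ℂ)‖ ≤
          ε M * (X * ∫ u : ℝ, (1 + |u|) ^ 2 * Real.exp (-b * u ^ 2)) := by
        rw [← integral_sub iP iΦD]
        have h6 : ∀ u : ℝ, ‖PP a M u * (starRingEnd ℂ) (D u) * (Real.exp (-b * u ^ 2) : ℂ) -
            Φ u * (starRingEnd ℂ) (D u) * (Real.exp (-b * u ^ 2) : ℂ)‖ ≤
            ε M * X * ((1 + |u|) ^ 2 * Real.exp (-b * u ^ 2)) := by
          intro u
          have e : PP a M u * (starRingEnd ℂ) (D u) * (Real.exp (-b * u ^ 2) : ℂ) -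
            Φ u * (starRingEnd ℂ) (D u) * (Real.exp (-b * u ^ 2) : ℂ) =
            -(Φ u - PP a M u) * (starRingEnd ℂ) (D u) * (Real.exp (-b * u ^ 2) : ℂ) := by ring
          rw [e, norm_mul, norm_mul, norm_neg, RCLike.norm_conj, Complex.norm_real,
            Real.norm_eq_abs, Real.abs_exp]
          have h7 := hK M u hM1
          have h8 : 0 ≤ ε M * (1 + |u|) := (norm_nonneg _).trans h7
          have h9 : 0 ≤ ε M := by
            by_contra hcon
            push Not at hcon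
            have : 0 < 1 + |u| := by positivity
            nlinarith
          calc ‖Φ u - PP a M u‖ * ‖D u‖ * Real.exp (-b * u ^ 2)
              ≤ (ε M * (1 + |u|)) * X * Real.exp (-b * u ^ 2) := by
                apply mul_le_mul_of_nonneg_right _ (Real.exp_pos _).le
                exact mul_le_mul h7 (hDn u) (norm_nonneg _) h8
            _ = ε M * X * ((1 + |u|) * Real.exp (-b * u ^ 2)) := by ring
            _ ≤ ε M * X * ((1 + |u|) ^ 2 * Real.exp (-b * u ^ 2)) := by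
                apply mul_le_mul_of_nonneg_left _ (by positivity)
                exact mul_le_mul_of_nonneg_right (hone' u) (Real.exp_pos _).le
        refine (norm_integral_le_of_norm_le (hint2.const_mul (ε M * X))
          (Filter.Eventually.of_forall h6)).trans ?_
        rw [integral_const_mul, mul_assoc]
      have h6 := (Complex.abs_re_le_norm _).trans h5
      rw [Complex.sub_re, h4] at h6
      have h7 := (abs_le.1 h6).2
      have h8 : R * (B - 1) ≤ R * S.re := mul_le_mul_of_nonneg_left h3 hR0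
      linarith
    have hlim : Tendsto (fun M : ℕ => (∫ u : ℝ, Φ u * (starRingEnd ℂ) (D u) *
        (Real.exp (-b * u ^ 2) : ℂ)).re +
        ε M * (X * ∫ u : ℝ, (1 + |u|) ^ 2 * Real.exp (-b * u ^ 2))) atTop
        (𝓝 ((∫ u : ℝ, Φ u * (starRingEnd ℂ) (D u) * (Real.exp (-b * u ^ 2) : ℂ)).re +
        0 * (X * ∫ u : ℝ, (1 + |u|) ^ 2 * Real.exp (-b * u ^ 2)))) :=
      tendsto_const_nhds.add (hε.mul tendsto_const_nhds)
    rw [zero_mul, add_zero] at hlim
    exact ge_of_tendsto hlim (Filter.eventually_atTop.2 ⟨X, hM⟩)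
  -- upper bound for `∫ |D|^2 w`
  have hDD : (∫ u : ℝ, D u * (starRingEnd ℂ) (D u) * (Real.exp (-b * u ^ 2) : ℂ)).re ≤
      R * (B + 1) := by
    have h1 := int_pair hb0 a X X
    have h2 := pair_bound ha hX (le_refl X)
    rw [← hb, ← hB] at h2
    set S : ℂ := ∑ m ∈ Finset.Icc 1 X, ∑ n ∈ Finset.Icc 1 X, a m * (starRingEnd ℂ) (a n) *
      (Real.exp (-((Real.log m - Real.log n) ^ 2) / (4 * b)) : ℂ) with hS
    rw [hD, h1, ← hR, Complex.re_ofReal_mul]
    apply mul_le_mul_of_nonneg_left _ hR0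
    have h4 := (Complex.abs_re_le_norm (S - (B : ℂ))).trans h2
    rw [Complex.sub_re, Complex.ofReal_re] at h4
    have := (abs_le.1 h4).2
    linarith
  -- conclusion
  have hpt : ∀ u : ℝ, 2 * (Φ u * (starRingEnd ℂ) (D u) * (Real.exp (-b * u ^ 2) : ℂ)).re -
      (D u * (starRingEnd ℂ) (D u) * (Real.exp (-b * u ^ 2) : ℂ)).re ≤
      (((‖Φ u‖ ^ 2 : ℝ) : ℂ) * (Real.exp (-b * u ^ 2) : ℂ)).re := by
    intro u
    rw [Complex.re_mul_ofReal, Complex.re_mul_ofReal, Complex.re_mul_ofReal, Complex.ofReal_re,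
      ← mul_assoc, ← sub_mul]
    apply mul_le_mul_of_nonneg_right _ (Real.exp_pos _).le
    have h1 : 0 ≤ Complex.normSq (Φ u - D u) := Complex.normSq_nonneg _
    rw [Complex.normSq_sub] at h1
    rw [Complex.mul_conj, Complex.ofReal_re, ← Complex.normSq_eq_norm_sq]
    linarith
  have i1 : Integrable (fun u : ℝ =>
      (((‖Φ u‖ ^ 2 : ℝ) : ℂ) * (Real.exp (-b * u ^ 2) : ℂ)).re) := iΦ.re
  have i2 : Integrable (fun u : ℝ =>
      (Φ u * (starRingEnd ℂ) (D u) * (Real.exp (-b * u ^ 2) : ℂ)).re) := iΦD.re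
  have i3 : Integrable (fun u : ℝ =>
      (D u * (starRingEnd ℂ) (D u) * (Real.exp (-b * u ^ 2) : ℂ)).re) := iDD.re
  have hfin : ∫ u : ℝ, (2 * (Φ u * (starRingEnd ℂ) (D u) * (Real.exp (-b * u ^ 2) : ℂ)).re -
      (D u * (starRingEnd ℂ) (D u) * (Real.exp (-b * u ^ 2) : ℂ)).re) ≤
      ∫ u : ℝ, (((‖Φ u‖ ^ 2 : ℝ) : ℂ) * (Real.exp (-b * u ^ 2) : ℂ)).re :=
    integral_mono ((i2.const_mul 2).sub i3) i1 hpt
  have e1 : ∫ u : ℝ, (2 * (Φ u * (starRingEnd ℂ) (D u) * (Real.exp (-b * u ^ 2) : ℂ)).re -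
      (D u * (starRingEnd ℂ) (D u) * (Real.exp (-b * u ^ 2) : ℂ)).re) =
      2 * (∫ u : ℝ, Φ u * (starRingEnd ℂ) (D u) * (Real.exp (-b * u ^ 2) : ℂ)).re -
      (∫ u : ℝ, D u * (starRingEnd ℂ) (D u) * (Real.exp (-b * u ^ 2) : ℂ)).re := by
    rw [integral_sub (i2.const_mul 2) i3, integral_const_mul]
    have j2 := integral_re iΦD
    have j3 := integral_re iDD
    simp only [RCLike.re_to_complex] at j2 j3
    rw [j2, j3]
  rw [e1] at hfin
  have e2 : ∫ u : ℝ, (((‖Φ u‖ ^ 2 : ℝ) : ℂ) * (Real.exp (-b * u ^ 2) : ℂ)).re =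
      ∫ u : ℝ, ‖Φ u‖ ^ 2 * Real.exp (-b * u ^ 2) := by
    refine integral_congr_ae (Filter.Eventually.of_forall fun u => ?_)
    show (((‖Φ u‖ ^ 2 : ℝ) : ℂ) * (Real.exp (-b * u ^ 2) : ℂ)).re = _
    rw [Complex.re_mul_ofReal, Complex.ofReal_re]
  rw [e2] at hfin
  nlinarith

end Pool.Agent.Helper55.MZ
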