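import Pool.Agent.Helper55.MZ.Arith
import Pool.Agent.Helper55.MZ.MeanValue
import Pool.Agent.Helper55.MZ.Local

/-!
# Zeros in every window
-/

set_option autoImplicit false
open Filter Topology Complex Set MeasureTheory

namespace Pool.Agent.Helper55.MZ

/-- the point `σ + i t` -/
noncomputable def pt (σ t : ℝ) : ℂ := (σ : ℂ) + (t : ℂ) * I

lemma pt_re (σ t : ℝ) : (pt σ t).re = σ := by simp [pt]
lemma pt_im (σ t : ℝ) : (pt σ t).im = t := by simp [pt]

lemma norm_pt_le (σ t : ℝ) : ‖pt σ t‖ ≤ |σ| + |t| := by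
  unfold pt
  refine (norm_add_le _ _).trans ?_
  rw [norm_mul, Complex.norm_I, mul_one, Complex.norm_real, Complex.norm_real]
  rfl

lemma cpow_pt {m : ℕ} (hm : 1 ≤ m) (σ T u : ℝ) :
    (m : ℂ) ^ (-(pt σ T)) * ee m u = (m : ℂ) ^ (-(pt σ (T + u))) := by
  have hm0 : (m : ℂ) ≠ 0 := by exact_mod_cast (by omega : m ≠ 0)
  rw [Complex.cpow_def_of_ne_zero hm0, Complex.cpow_def_of_ne_zero hm0, ee, ← Complex.exp_add]
  congr 1
  have h1 : Complex.log (m : ℂ) = ((Real.log m : ℝ) : ℂ) := by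
    rw [← Complex.ofReal_natCast, ← Complex.ofReal_log (by positivity)]
  rw [h1]
  unfold pt
  push_cast
  ring

/-- The window estimate. -/
lemma Small.window {f : ℕ → ℂ} {β C : ℝ} (h : Small f β C) (hf : CMul f) {σ : ℝ}
    (hσ : -β < σ) (hσ1 : |σ| ≤ 1) {K : ℝ} (hK1 : 1 ≤ K)
    (hK : ∀ s : ℂ, σ ≤ s.re → ‖FF f s‖ ≤ K * (1 + ‖s‖)) {X : ℕ} (hX : 3072 ≤ X) (T M0 : ℝ)
    (hM0 : ∀ u : ℝ, |u| ≤ (X : ℝ) ^ 3 → ‖FF f (pt σ (T + u))‖ ≤ M0) :
    ∑ n ∈ Finset.Icc 1 X, ‖f n‖ ^ 2 * (n : ℝ) ^ (-2 * σ) ≤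
      3 + M0 ^ 2 + 20 * (K * (2 + |T|)) ^ 2 * (X : ℝ) ^ 4 * Real.exp (-((X : ℝ) ^ 2 / 2)) := by
  have hX' : (3072 : ℝ) ≤ X := by exact_mod_cast hX
  have hX0 : (0 : ℝ) < X := by linarith
  have hM00 : 0 ≤ M0 := (norm_nonneg _).trans (hM0 0 (by rw [abs_zero]; positivity))
  set a : ℕ → ℂ := fun n => f n * (n : ℂ) ^ (-(pt σ T)) with ha
  have hnorm : ∀ n : ℕ, 1 ≤ n → ‖a n‖ = ‖f n‖ * (n : ℝ) ^ (-σ) := by
    intro n hn
    rw [ha]
    simp only
    rw [norm_mul, Complex.norm_natCast_cpow_of_pos (by omega), Complex.neg_re, pt_re]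
  have ha1 : ∀ n : ℕ, 1 ≤ n → ‖a n‖ ≤ 1 := by
    intro n hn
    have hn1 : (1 : ℝ) ≤ n := by exact_mod_cast hn
    rw [hnorm n hn]
    calc ‖f n‖ * (n : ℝ) ^ (-σ) ≤ (n : ℝ) ^ (-β) * (n : ℝ) ^ (-σ) :=
          mul_le_mul_of_nonneg_right (h.coeff hf hn) (by positivity)
      _ = (n : ℝ) ^ (-β + -σ) := (Real.rpow_add (by linarith) _ _).symm
      _ ≤ 1 := Real.rpow_le_one_of_one_le_of_nonpos hn1 (by linarith)
  set Φ : ℝ → ℂ := fun u => FF f (pt σ (T + u)) with hΦ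
  have hΦc : Continuous Φ := by
    have hpt : Continuous fun u : ℝ => pt σ (T + u) := by
      unfold pt; fun_prop
    have h1 : ContinuousOn (FF f) {s | -β < s.re} := h.differentiableOn.continuousOn
    refine h1.comp_continuous hpt fun u => ?_
    show -β < (pt σ (T + u)).re
    rw [pt_re]; exact hσ
  obtain ⟨e, he0, he⟩ := h.approx (η := σ + β) (by linarith)
  have hs2 : ∀ u : ℝ, 1 + ‖pt σ (T + u)‖ ≤ (2 + |T|) * (1 + |u|) := by
    intro u
    have h1 := norm_pt_le σ (T + u)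
    have h2 := abs_add_le T u
    have h3 := abs_nonneg T
    have h4 := abs_nonneg u
    nlinarith
  have hKK : ∀ (M : ℕ) (u : ℝ), 1 ≤ M → ‖Φ u - PP a M u‖ ≤ (|e M| * (2 + |T|)) * (1 + |u|) := by
    intro M u hM
    have h1 : PP a M u = ∑ m ∈ Finset.Icc 1 M, f m * (m : ℂ) ^ (-(pt σ (T + u))) := by
      unfold PP
      refine Finset.sum_congr rfl fun m hm => ?_
      rw [ha]
      simp only
      rw [mul_assoc, cpow_pt (Finset.mem_Icc.1 hm).1]
    rw [h1]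
    have h2 := he (pt σ (T + u)) (by rw [pt_re]; linarith) M hM
    refine h2.trans ?_
    have h3 := hs2 u
    have h4 : 0 ≤ 1 + ‖pt σ (T + u)‖ := by positivity
    calc e M * (1 + ‖pt σ (T + u)‖) ≤ |e M| * (1 + ‖pt σ (T + u)‖) :=
          mul_le_mul_of_nonneg_right (le_abs_self _) h4
      _ ≤ |e M| * ((2 + |T|) * (1 + |u|)) := mul_le_mul_of_nonneg_left h3 (abs_nonneg _)
      _ = _ := by ring
  have hε : Tendsto (fun M => |e M| * (2 + |T|)) atTop (𝓝 0) := by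
    have := he0.abs.mul_const (2 + |T|)
    simpa using this
  have hmv := mean_value ha1 hΦc hε hKK hX
  set b : ℝ := 1 / (X : ℝ) ^ 4 with hb
  have hb0 : 0 < b := by positivity
  have hb1 : b ≤ 1 := by
    rw [hb, div_le_one (by positivity)]
    exact one_le_pow₀ (by linarith)
  set R : ℝ := Real.sqrt (Real.pi / b) with hR
  have hR0 : 0 < R := Real.sqrt_pos.2 (by positivity)
  have hB : ∑ n ∈ Finset.Icc 1 X, ‖a n‖ ^ 2 =
      ∑ n ∈ Finset.Icc 1 X, ‖f n‖ ^ 2 * (n : ℝ) ^ (-2 * σ) := by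
    refine Finset.sum_congr rfl fun n hn => ?_
    have hn1 := (Finset.mem_Icc.1 hn).1
    have hn0 : (0 : ℝ) < n := by exact_mod_cast hn1
    rw [hnorm n hn1, mul_pow]
    congr 1
    rw [← Real.rpow_natCast, ← Real.rpow_mul hn0.le]
    congr 1
    push_cast
    ring
  rw [hB] at hmv
  set B : ℝ := ∑ n ∈ Finset.Icc 1 X, ‖f n‖ ^ 2 * (n : ℝ) ^ (-2 * σ) with hBdef
  set Q : ℝ := (K * (2 + |T|)) ^ 2 with hQ
  have hQ0 : 0 ≤ Q := sq_nonneg _
  -- pointwise bound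
  have hpt : ∀ u : ℝ, ‖Φ u‖ ^ 2 * Real.exp (-b * u ^ 2) ≤
      M0 ^ 2 * Real.exp (-b * u ^ 2) +
        Q * (10 / b) * Real.exp (-((X : ℝ) ^ 2 / 2)) * Real.exp (-(b / 4) * u ^ 2) := by
    intro u
    rcases le_or_gt |u| ((X : ℝ) ^ 3) with hu | hu
    · have h1 : ‖Φ u‖ ^ 2 ≤ M0 ^ 2 := pow_le_pow_left₀ (norm_nonneg _) (hM0 u hu) 2
      have h2 : ‖Φ u‖ ^ 2 * Real.exp (-b * u ^ 2) ≤ M0 ^ 2 * Real.exp (-b * u ^ 2) :=
        mul_le_mul_of_nonneg_right h1 (Real.exp_pos _).le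
      have h3 : 0 ≤ Q * (10 / b) * Real.exp (-((X : ℝ) ^ 2 / 2)) * Real.exp (-(b / 4) * u ^ 2) := by
        positivity
      linarith
    · have h1 : ‖Φ u‖ ^ 2 ≤ Q * (1 + |u|) ^ 2 := by
        have h2 : ‖Φ u‖ ≤ K * (2 + |T|) * (1 + |u|) := by
          refine (hK _ (by rw [pt_re])).trans ?_
          calc K * (1 + ‖pt σ (T + u)‖) ≤ K * ((2 + |T|) * (1 + |u|)) :=
                mul_le_mul_of_nonneg_left (hs2 u) (by linarith)
            _ = _ := by ring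
        calc ‖Φ u‖ ^ 2 ≤ (K * (2 + |T|) * (1 + |u|)) ^ 2 :=
              pow_le_pow_left₀ (norm_nonneg _) h2 2
          _ = Q * (1 + |u|) ^ 2 := by rw [hQ]; ring
      have h3 := poly_le hb0 hb1 u
      have h4 : (X : ℝ) ^ 6 ≤ u ^ 2 := by
        have : ((X : ℝ) ^ 3) ^ 2 ≤ |u| ^ 2 := pow_le_pow_left₀ (by positivity) hu.le 2
        rw [sq_abs] at this
        calc (X : ℝ) ^ 6 = ((X : ℝ) ^ 3) ^ 2 := by ring
          _ ≤ _ := this
      have h5 : (X : ℝ) ^ 2 ≤ b * u ^ 2 := by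
        rw [hb, one_div, inv_mul_eq_div, le_div_iff₀ (by positivity)]
        calc (X : ℝ) ^ 2 * X ^ 4 = X ^ 6 := by ring
          _ ≤ _ := h4
      have h6 : Real.exp (b / 4 * u ^ 2) * Real.exp (-b * u ^ 2) ≤
          Real.exp (-((X : ℝ) ^ 2 / 2)) * Real.exp (-(b / 4) * u ^ 2) := by
        rw [← Real.exp_add, ← Real.exp_add]
        apply Real.exp_le_exp.2
        linarith
      have h7 : 0 ≤ M0 ^ 2 * Real.exp (-b * u ^ 2) := by positivity
      calc ‖Φ u‖ ^ 2 * Real.exp (-b * u ^ 2)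
          ≤ Q * (1 + |u|) ^ 2 * Real.exp (-b * u ^ 2) :=
            mul_le_mul_of_nonneg_right h1 (Real.exp_pos _).le
        _ ≤ Q * (10 / b * Real.exp (b / 4 * u ^ 2)) * Real.exp (-b * u ^ 2) := by
            apply mul_le_mul_of_nonneg_right _ (Real.exp_pos _).le
            exact mul_le_mul_of_nonneg_left h3 hQ0
        _ = Q * (10 / b) * (Real.exp (b / 4 * u ^ 2) * Real.exp (-b * u ^ 2)) := by ring
        _ ≤ Q * (10 / b) * (Real.exp (-((X : ℝ) ^ 2 / 2)) * Real.exp (-(b / 4) * u ^ 2)) :=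
            mul_le_mul_of_nonneg_left h6 (by positivity)
        _ = Q * (10 / b) * Real.exp (-((X : ℝ) ^ 2 / 2)) * Real.exp (-(b / 4) * u ^ 2) := by ring
        _ ≤ _ := by linarith
  have hint : Integrable (fun u : ℝ => M0 ^ 2 * Real.exp (-b * u ^ 2) +
        Q * (10 / b) * Real.exp (-((X : ℝ) ^ 2 / 2)) * Real.exp (-(b / 4) * u ^ 2)) :=
    ((integrable_gauss hb0).const_mul _).add ((integrable_gauss (by positivity)).const_mul _)
  have hint' : Integrable (fun u : ℝ => ‖Φ u‖ ^ 2 * Real.exp (-b * u ^ 2)) := by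
    refine Integrable.mono' hint ?_ ?_
    · exact (by fun_prop : Continuous fun u : ℝ =>
        ‖Φ u‖ ^ 2 * Real.exp (-b * u ^ 2)).aestronglyMeasurable
    · refine Filter.Eventually.of_forall fun u => ?_
      rw [Real.norm_eq_abs, abs_of_nonneg (by positivity)]
      exact hpt u
  have hle : ∫ u : ℝ, ‖Φ u‖ ^ 2 * Real.exp (-b * u ^ 2) ≤
      R * (M0 ^ 2 + 20 * Q * (X : ℝ) ^ 4 * Real.exp (-((X : ℝ) ^ 2 / 2))) := by
    refine (integral_mono hint' hint hpt).trans ?_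
    rw [integral_add ((integrable_gauss hb0).const_mul _)
      ((integrable_gauss (by positivity)).const_mul _), integral_const_mul, integral_const_mul,
      integral_gaussian, integral_gaussian, ← hR]
    have e1 : Real.sqrt (Real.pi / (b / 4)) = 2 * R := by
      rw [hR]
      have : Real.pi / (b / 4) = 2 ^ 2 * (Real.pi / b) := by field_simp; norm_num
      rw [this, Real.sqrt_mul (by norm_num), Real.sqrt_sq (by norm_num)]
    rw [e1]
    have e2 : 10 / b = 10 * (X : ℝ) ^ 4 := by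
      rw [hb]; field_simp
    rw [e2]
    apply le_of_eq
    ring
  have hfin := hmv.trans hle
  have := le_of_mul_le_mul_left hfin hR0
  linarith

end Pool.Agent.Helper55.MZ
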