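import Pool.Agent.Helper55.MZ.Window

/-!
# A zero near every height, and the number of zeros
-/

set_option autoImplicit false
open Filter Topology Complex Set MeasureTheory

namespace Pool.Agent.Helper55.MZ

/-- the exponent coming from the three circles theorem -/
noncomputable def theta (a b : ℝ) : ℝ :=
  (Real.log (4 - b) - Real.log (1 / 2)) /
    (Real.log (4 - (a + b) / 2) - Real.log (1 / 2))

/-- the constant coming from the Borel-Caratheodory theorem -/
noncomputable def kk (a b : ℝ) : ℝ :=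
  (3 * (4 - (a + b) / 2) + (4 - a)) / ((b - a) / 2)

lemma theta_lt {a b : ℝ} (hab : a < b) (hb1 : b ≤ 1) : theta a b < 1 := by
  unfold theta
  rw [div_lt_one]
  · have : Real.log (4 - b) < Real.log (4 - (a + b) / 2) :=
      Real.log_lt_log (by linarith) (by linarith)
    linarith
  · have : Real.log (1 / 2) < Real.log (4 - (a + b) / 2) :=
      Real.log_lt_log (by norm_num) (by linarith)
    linarith

lemma theta_nonneg {a b : ℝ} (hab : a < b) (hb1 : b ≤ 1) : 0 ≤ theta a b := by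
  unfold theta
  apply div_nonneg
  · have : Real.log (1 / 2) ≤ Real.log (4 - b) :=
      Real.log_le_log (by norm_num) (by linarith)
    linarith
  · have : Real.log (1 / 2) ≤ Real.log (4 - (a + b) / 2) :=
      Real.log_le_log (by norm_num) (by linarith)
    linarith

lemma kk_nonneg {a b : ℝ} (hab : a < b) (hb1 : b ≤ 1) : 0 ≤ kk a b := by
  unfold kk
  apply div_nonneg <;> linarith

/-- In a zero-free box the function is small. -/
lemma Small.value_le {f : ℕ → ℂ} {β C : ℝ} (h : Small f β C) (hf : CMul f) {a b : ℝ}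
    (ha : -β < a) (hab : a < b) (hb1 : b ≤ 1) {K : ℝ} (hK1 : 1 ≤ K)
    (hK : ∀ s : ℂ, a ≤ s.re → ‖FF f s‖ ≤ K * (1 + ‖s‖)) {t : ℝ}
    (hzf : ∀ s : ℂ, a < s.re → |s.im - t| ≤ 5 → FF f s ≠ 0) {L : ℝ}
    (hL : Real.log (K * (10 + |t|)) ≤ L) :
    ‖FF f (pt b t)‖ ≤ Real.exp (5 * (kk a b * L) ^ theta a b) := by
  have hβ1 := h.β1
  set r : ℝ := 4 - a with hr
  set r' : ℝ := 4 - (a + b) / 2 with hr'
  set c : ℂ := pt 4 t with hc
  set G : ℂ → ℂ := fun z => FF f (c + z) with hG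
  have ht0 := abs_nonneg t
  have hre : ∀ z : ℂ, (c + z).re = 4 + z.re := by
    intro z; rw [Complex.add_re, hc, pt_re]
  have him : ∀ z : ℂ, (c + z).im = t + z.im := by
    intro z; rw [Complex.add_im, hc, pt_im]
  have hball : ∀ z ∈ Metric.ball (0 : ℂ) r, a < (c + z).re := by
    intro z hz
    rw [mem_ball_zero_iff] at hz
    have h1 := (abs_le.1 (Complex.abs_re_le_norm z)).1
    rw [hre]
    linarith
  have hGd : DifferentiableOn ℂ G (Metric.ball 0 r) := by
    intro z hz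
    have h1 := hball z hz
    have h2 : DifferentiableAt ℂ (FF f) (c + z) :=
      h.differentiableOn.differentiableAt
        ((isOpen_lt continuous_const Complex.continuous_re).mem_nhds (by
          show -β < (c + z).re
          linarith))
    have h3 : DifferentiableAt ℂ (fun z => c + z) z := by fun_prop
    exact (DifferentiableAt.comp z h2 h3).differentiableWithinAt
  have hne : ∀ z ∈ Metric.ball (0 : ℂ) r, G z ≠ 0 := by
    intro z hz
    refine hzf (c + z) (hball z hz) ?_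
    rw [him, add_sub_cancel_left]
    rw [mem_ball_zero_iff] at hz
    have := Complex.abs_im_le_norm z
    linarith
  have hnear : ∀ z ∈ Metric.ball (0 : ℂ) 1, ‖G z - 1‖ ≤ 1 / 2 := by
    intro z hz
    rw [mem_ball_zero_iff] at hz
    refine h.near_one hf.one (h.coeff_one hf) ?_
    have h1 := (abs_le.1 (Complex.abs_re_le_norm z)).1
    rw [hre]
    linarith
  have hKt : 0 < K * (10 + |t|) := by positivity
  have hGM : ∀ z ∈ Metric.ball (0 : ℂ) r, ‖G z‖ ≤ Real.exp (Real.log (K * (10 + |t|))) := by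
    intro z hz
    rw [Real.exp_log hKt]
    refine (hK (c + z) (hball z hz).le).trans ?_
    apply mul_le_mul_of_nonneg_left _ (by linarith)
    rw [mem_ball_zero_iff] at hz
    have h1 := norm_add_le c z
    have h2 := norm_pt_le 4 t
    rw [← hc, abs_of_pos (by norm_num : (0 : ℝ) < 4)] at h2
    linarith
  have hlog1 : 1 ≤ Real.log (K * (10 + |t|)) := by
    rw [Real.le_log_iff_exp_le hKt]
    have := Real.exp_one_lt_d9
    nlinarith
  have hσ : c + ((b - 4 : ℝ) : ℂ) = pt b t := by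
    rw [hc]
    unfold pt
    push_cast
    ring
  set z0 : ℂ := ((b - 4 : ℝ) : ℂ) with hz0
  have hz0n : ‖z0‖ = 4 - b := by
    rw [hz0, Complex.norm_real, Real.norm_eq_abs, abs_of_neg (by linarith)]
    ring
  have hlb := local_bound (r := r) (r' := r') (G := G) (by linarith) (by linarith) (by linarith)
    hlog1 hGd hne hnear hGM (z0 := z0) (by rw [hz0n]; linarith) (by rw [hz0n]; linarith)
  rw [hz0n] at hlb
  have hGz : G z0 = FF f (pt b t) := by rw [← hσ]
  rw [hGz] at hlb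
  refine hlb.trans (Real.exp_le_exp.2 ?_)
  have hθe : (Real.log (4 - b) - Real.log (1 / 2)) / (Real.log r' - Real.log (1 / 2)) =
      theta a b := rfl
  rw [hθe]
  have hθ0 := theta_nonneg hab hb1
  have h5 : (5 : ℝ) ^ (1 - theta a b) ≤ 5 := by
    calc (5 : ℝ) ^ (1 - theta a b) ≤ 5 ^ (1 : ℝ) :=
          Real.rpow_le_rpow_of_exponent_le (by norm_num) (by linarith)
      _ = 5 := Real.rpow_one 5
  have hcoef : 0 ≤ (3 * r' + r) / (r - r') := by
    apply div_nonneg <;> linarith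
  have hke : (3 * r' + r) / (r - r') = kk a b := by
    unfold kk
    congr 1
    rw [hr, hr']
    ring
  rw [hke] at hcoef ⊢
  have h6 : (kk a b * Real.log (K * (10 + |t|))) ^ theta a b ≤ (kk a b * L) ^ theta a b :=
    Real.rpow_le_rpow (mul_nonneg hcoef (by linarith)) (mul_le_mul_of_nonneg_left hL hcoef) hθ0
  exact mul_le_mul h5 h6 (Real.rpow_nonneg (mul_nonneg hcoef (by linarith)) _) (by norm_num)

/-- the height `exp ((log X) ^ l)` -/
noncomputable def hh (l : ℝ) (X : ℕ) : ℝ := Real.exp ((Real.log X) ^ l)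

lemma tendsto_logN : Tendsto (fun X : ℕ => Real.log X) atTop atTop :=
  Real.tendsto_log_atTop.comp tendsto_natCast_atTop_atTop

lemma ev_pow {k c m : ℝ} {θ l : ℝ} (hθl : l * θ < 1) (hθ : 0 ≤ θ) (hk : 0 < k) (hc : 0 ≤ c)
    (hm : 0 ≤ m) :
    ∀ᶠ X : ℕ in atTop, 5 * (c * (m * (Real.log X) ^ l)) ^ θ ≤ k * Real.log X := by
  have h2 : Tendsto (fun y : ℝ => y ^ (-(1 - l * θ))) atTop (𝓝 0) :=
    tendsto_rpow_neg_atTop (by linarith)
  have h3 : Tendsto (fun X : ℕ => 5 * (c * m) ^ θ * (Real.log X) ^ (-(1 - l * θ))) atTop (𝓝 0) := by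
    have := (h2.comp tendsto_logN).const_mul (5 * (c * m) ^ θ)
    simpa using this
  filter_upwards [h3.eventually (ge_mem_nhds hk), tendsto_logN.eventually (eventually_gt_atTop 0)]
    with X hX hX0
  have e1 : c * (m * (Real.log (X : ℝ)) ^ l) = c * m * (Real.log X) ^ l := by ring
  rw [e1, Real.mul_rpow (by positivity) (by positivity), ← Real.rpow_mul hX0.le]
  have e2 : (Real.log (X : ℝ)) ^ (l * θ) = (Real.log X) ^ (-(1 - l * θ)) * Real.log X := by
    have : (Real.log (X : ℝ)) ^ (-(1 - l * θ)) * Real.log X =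
        (Real.log X) ^ (-(1 - l * θ)) * (Real.log X) ^ (1 : ℝ) := by rw [Real.rpow_one]
    rw [this, ← Real.rpow_add hX0]
    congr 1
    ring
  rw [e2]
  calc 5 * ((c * m) ^ θ * ((Real.log X) ^ (-(1 - l * θ)) * Real.log X)) =
      (5 * (c * m) ^ θ * (Real.log X) ^ (-(1 - l * θ))) * Real.log X := by ring
    _ ≤ k * Real.log X := mul_le_mul_of_nonneg_right hX hX0.le

/-- `(log X) ^ l ≤ X / 8` eventually -/
lemma ev_log_le (l : ℝ) : ∀ᶠ X : ℕ in atTop, (Real.log X) ^ l ≤ X / 8 := by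
  have h := (isLittleO_log_rpow_atTop (r := (1 : ℝ)) one_pos)
  have h1 : (fun x : ℝ => (Real.log x) ^ l) =o[atTop] fun x : ℝ => x ^ (1 : ℝ) :=
    isLittleO_log_rpow_rpow_atTop l one_pos
  have h2 := (h1.comp_tendsto tendsto_natCast_atTop_atTop).bound (show (0 : ℝ) < 1 / 8 by norm_num)
  filter_upwards [h2, tendsto_logN.eventually (eventually_gt_atTop 0)] with X hX hX0
  simp only [Function.comp_apply, Real.rpow_one] at hX
  rw [Real.norm_eq_abs, Real.norm_eq_abs, abs_of_nonneg (by positivity),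
    abs_of_nonneg (by positivity)] at hX
  linarith

lemma ev_tail (c l : ℝ) :
    ∀ᶠ X : ℕ in atTop, c * (hh l X) ^ 2 * (X : ℝ) ^ 4 * Real.exp (-((X : ℝ) ^ 2 / 2)) ≤ 1 := by
  have h1 : Tendsto (fun x : ℝ => x ^ 4 * Real.exp (-x)) atTop (𝓝 0) :=
    Real.tendsto_pow_mul_exp_neg_atTop_nhds_zero 4
  have h2 : Tendsto (fun X : ℕ => |c| * ((X : ℝ) ^ 4 * Real.exp (-(X : ℝ)))) atTop (𝓝 0) := by
    have := (h1.comp tendsto_natCast_atTop_atTop).const_mul |c|
    simpa using this
  filter_upwards [h2.eventually (ge_mem_nhds one_pos), eventually_ge_atTop 4, ev_log_le l]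
    with X hX hX2 hXl
  have hX2' : (4 : ℝ) ≤ X := by exact_mod_cast hX2
  refine le_trans ?_ hX
  have h3 : (hh l X) ^ 2 * Real.exp (-((X : ℝ) ^ 2 / 2)) ≤ Real.exp (-(X : ℝ)) := by
    unfold hh
    rw [← Real.exp_nat_mul, ← Real.exp_add]
    apply Real.exp_le_exp.2
    push_cast
    nlinarith
  have h4 : 0 ≤ (X : ℝ) ^ 4 * ((hh l X) ^ 2 * Real.exp (-((X : ℝ) ^ 2 / 2))) := by positivity
  calc c * (hh l X) ^ 2 * (X : ℝ) ^ 4 * Real.exp (-((X : ℝ) ^ 2 / 2)) =
      c * ((X : ℝ) ^ 4 * ((hh l X) ^ 2 * Real.exp (-((X : ℝ) ^ 2 / 2)))) := by ring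
    _ ≤ |c| * ((X : ℝ) ^ 4 * ((hh l X) ^ 2 * Real.exp (-((X : ℝ) ^ 2 / 2)))) :=
        mul_le_mul_of_nonneg_right (le_abs_self _) h4
    _ ≤ |c| * ((X : ℝ) ^ 4 * Real.exp (-(X : ℝ))) := by
        apply mul_le_mul_of_nonneg_left _ (abs_nonneg _)
        exact mul_le_mul_of_nonneg_left h3 (by positivity)

lemma ev_gap {c : ℝ} (hc : 0 < c) :
    ∀ᶠ X : ℕ in atTop, 4 + (X : ℝ) ^ (c / 2) ≤ (X : ℝ) ^ c := by
  have h1 : Tendsto (fun X : ℕ => (X : ℝ) ^ (c / 2)) atTop atTop :=
    (tendsto_rpow_atTop (by linarith)).comp tendsto_natCast_atTop_atTop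
  filter_upwards [h1.eventually (eventually_ge_atTop 4), eventually_ge_atTop 1] with X hX hX1
  have hX0 : (0 : ℝ) ≤ X := by positivity
  have e : (X : ℝ) ^ c = ((X : ℝ) ^ (c / 2)) ^ 2 := by
    rw [← Real.rpow_natCast, ← Real.rpow_mul hX0]
    congr 1
    push_cast
    ring
  rw [e]
  nlinarith

/-- `k X ^ 4 ≤ exp ((log X) ^ l)` eventually, for `l > 1` -/
lemma ev_hh_ge {l : ℝ} (hl : 1 < l) (m : ℝ) :
    ∀ᶠ X : ℕ in atTop, m * Real.log X ≤ (Real.log X) ^ l := by
  have h1 : Tendsto (fun X : ℕ => (Real.log X) ^ (l - 1)) atTop atTop :=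
    (tendsto_rpow_atTop (by linarith)).comp tendsto_logN
  filter_upwards [h1.eventually (eventually_ge_atTop m),
    tendsto_logN.eventually (eventually_gt_atTop 0)] with X hX hX0
  have e : (Real.log (X : ℝ)) ^ l = (Real.log X) ^ (l - 1) * Real.log X := by
    have : (Real.log (X : ℝ)) ^ (l - 1) * Real.log X =
        (Real.log X) ^ (l - 1) * (Real.log X) ^ (1 : ℝ) := by rw [Real.rpow_one]
    rw [this, ← Real.rpow_add hX0]
    congr 1
    ring
  rw [e]
  exact mul_le_mul_of_nonneg_right hX hX0.le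

/-- Every window contains the ordinate of a zero. -/
theorem Small.zero_near {f : ℕ → ℂ} {β C : ℝ} (h : Small f β C) (hf : CMul f) {a b c l : ℝ}
    (ha : -β < a) (hab : a < b) (hb1 : b ≤ 1) (hc : 0 < c) (hl : 1 < l)
    (hlθ : l * theta a b < 1) :
    ∀ᶠ X : ℕ in atTop,
      (X : ℝ) ^ c < ∑ n ∈ Finset.Icc 1 X, ‖f n‖ ^ 2 * (n : ℝ) ^ (-2 * b) →
      ∀ T : ℝ, |T| ≤ hh l X →
        ∃ s : ℂ, FF f s = 0 ∧ a < s.re ∧ |s.im - T| ≤ (X : ℝ) ^ 3 + 5 := by
  have hβ1 := h.β1
  obtain ⟨K, hK1, hK⟩ := h.growth (η := β + a) (by linarith)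
  have hK' : ∀ s : ℂ, a ≤ s.re → ‖FF f s‖ ≤ K * (1 + ‖s‖) := fun s hs =>
    hK s (by linarith)
  have hθ1 : theta a b < 1 := theta_lt hab hb1
  have hk0 := kk_nonneg hab hb1
  have hKX : ∀ᶠ X : ℕ in atTop, 12 * K ≤ (X : ℝ) :=
    tendsto_natCast_atTop_atTop.eventually (eventually_ge_atTop (12 * K))
  filter_upwards [eventually_ge_atTop 3072, hKX,
    ev_pow (m := 2) (k := c / 4) hlθ (theta_nonneg hab hb1) (by positivity) hk0 (by norm_num),
    ev_tail (20 * (K ^ 2 * 9)) l, ev_gap hc, ev_hh_ge hl 3,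
    tendsto_logN.eventually (eventually_gt_atTop 0)] with X hX hXK hXpow hXtail hXgap hXh hlog0
  intro hBX T hT
  by_contra hcon
  push Not at hcon
  have hX' : (3072 : ℝ) ≤ X := by exact_mod_cast hX
  have hX0 : (0 : ℝ) < X := by linarith
  have hX1 : (1 : ℝ) ≤ X := by linarith
  have hX3A : (X : ℝ) ^ 3 ≤ hh l X := by
    unfold hh
    calc (X : ℝ) ^ 3 = Real.exp (3 * Real.log X) := by
          rw [show (3 : ℝ) = ((3 : ℕ) : ℝ) by norm_num, Real.exp_nat_mul, Real.exp_log hX0]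
      _ ≤ _ := Real.exp_le_exp.2 hXh
  have hXX3 : (X : ℝ) ≤ (X : ℝ) ^ 3 := by
    calc (X : ℝ) = X ^ 1 := (pow_one _).symm
      _ ≤ X ^ 3 := pow_le_pow_right₀ hX1 (by norm_num)
  have hXA1 : (1 : ℝ) ≤ hh l X := by linarith
  have hM0 : ∀ u : ℝ, |u| ≤ (X : ℝ) ^ 3 → ‖FF f (pt b (T + u))‖ ≤
      (X : ℝ) ^ (c / 4) := by
    intro u hu
    have hzf : ∀ s : ℂ, a < s.re → |s.im - (T + u)| ≤ 5 → FF f s ≠ 0 := by
      intro s hs hsim hs0
      have h1 := hcon s hs0 hs
      have h2 : |s.im - T| ≤ |s.im - (T + u)| + |u| := by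
        have := abs_add_le (s.im - (T + u)) u
        rwa [show s.im - (T + u) + u = s.im - T by ring] at this
      linarith
    have htb : |T + u| ≤ 2 * hh l X := by
      have := abs_add_le T u
      linarith
    have hKpos : 0 < K * (10 + |T + u|) := by positivity
    have hL : Real.log (K * (10 + |T + u|)) ≤ 2 * (Real.log X) ^ l := by
      have h1 : K * (10 + |T + u|) ≤ Real.exp (2 * (Real.log X) ^ l) := by
        calc K * (10 + |T + u|) ≤ K * (12 * hh l X) := by
              apply mul_le_mul_of_nonneg_left _ (by linarith)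
              linarith
          _ = 12 * K * hh l X := by ring
          _ ≤ hh l X * hh l X := mul_le_mul_of_nonneg_right (by linarith) (by linarith)
          _ = Real.exp (2 * (Real.log X) ^ l) := by
              unfold hh
              rw [← Real.exp_add]
              congr 1
              ring
      have h2 := Real.log_le_log hKpos h1
      rwa [Real.log_exp] at h2
    have h3 := h.value_le hf ha hab hb1 hK1 hK' hzf hL
    refine h3.trans ?_
    calc Real.exp (5 * (kk a b * (2 * (Real.log X) ^ l)) ^ theta a b) ≤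
        Real.exp (c / 4 * Real.log X) := Real.exp_le_exp.2 hXpow
      _ = (X : ℝ) ^ (c / 4) := by
          rw [Real.rpow_def_of_pos hX0, mul_comm]
  have hw := h.window hf (σ := b) (by linarith) (by
      rw [abs_le]; constructor <;> linarith) hK1
    (fun s hs => hK' s (by linarith)) hX T ((X : ℝ) ^ (c / 4)) hM0
  have e2 : ((X : ℝ) ^ (c / 4)) ^ 2 = (X : ℝ) ^ (c / 2) := by
    rw [← Real.rpow_natCast, ← Real.rpow_mul hX0.le]
    congr 1
    push_cast
    ring
  rw [e2] at hw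
  have e3 : 20 * (K * (2 + |T|)) ^ 2 * (X : ℝ) ^ 4 * Real.exp (-((X : ℝ) ^ 2 / 2)) ≤ 1 := by
    refine le_trans ?_ hXtail
    apply mul_le_mul_of_nonneg_right _ (Real.exp_pos _).le
    have h1 : (K * (2 + |T|)) ^ 2 ≤ (K * (3 * hh l X)) ^ 2 := by
      apply pow_le_pow_left₀ (by positivity)
      apply mul_le_mul_of_nonneg_left _ (by linarith)
      linarith
    calc 20 * (K * (2 + |T|)) ^ 2 * (X : ℝ) ^ 4 ≤
        20 * (K * (3 * hh l X)) ^ 2 * (X : ℝ) ^ 4 := by
          apply mul_le_mul_of_nonneg_right _ (by positivity)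
          linarith
      _ = 20 * (K ^ 2 * 9) * (hh l X) ^ 2 * (X : ℝ) ^ 4 := by ring
  linarith

/-- The number of zeros. -/
theorem Small.many_zeros {f : ℕ → ℂ} {β C : ℝ} (h : Small f β C) (hf : CMul f) {a b : ℝ}
    (ha : -β < a) (hab : a < b)
    (hns : ¬ Summable fun n : ℕ => ‖f n‖ ^ 2 * (n : ℝ) ^ (-2 * b)) :
    ∃ ϑ : ℝ, ϑ < 1 ∧ ∀ T0 : ℝ, ∃ T : ℝ, T0 ≤ T ∧ 1 < T ∧ ∃ Z : Finset ℂ,
      T * Real.exp (-(Real.log T) ^ ϑ) ≤ Z.card ∧
      ∀ s ∈ Z, FF f s = 0 ∧ a < s.re ∧ 0 < s.im ∧ s.im < T := by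
  have hβ0 := h.β0
  -- the exponent `b` is at most one
  have hb1 : b ≤ 1 := by
    by_contra hcon
    push Not at hcon
    apply hns
    have h1 : Summable fun n : ℕ => (n : ℝ) ^ (-1 - 1 : ℝ) := summable_pow one_pos
    rw [← summable_nat_add_iff 1] at h1 ⊢
    refine Summable.of_nonneg_of_le (fun n => by positivity) (fun n => ?_) h1
    have hn1 : (1 : ℝ) ≤ ((n + 1 : ℕ) : ℝ) := by push_cast; linarith [Nat.cast_nonneg (α := ℝ) n]
    have h2 := h.coeff_one hf (n + 1) (by omega)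
    have h3 : ‖f (n + 1)‖ ^ 2 ≤ 1 := pow_le_one₀ (norm_nonneg _) h2
    calc ‖f (n + 1)‖ ^ 2 * ((n + 1 : ℕ) : ℝ) ^ (-2 * b) ≤ 1 * ((n + 1 : ℕ) : ℝ) ^ (-2 * b) :=
          mul_le_mul_of_nonneg_right h3 (by positivity)
      _ ≤ ((n + 1 : ℕ) : ℝ) ^ (-1 - 1 : ℝ) := by
          rw [one_mul]
          exact Real.rpow_le_rpow_of_exponent_le hn1 (by linarith)
  -- intermediate line
  set m : ℝ := (a + b) / 2 with hm
  set c : ℝ := (b - a) / 2 with hc
  have hc0 : 0 < c := by rw [hc]; linarith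
  have ham : a < m := by rw [hm]; linarith
  have hm1 : m ≤ 1 := by rw [hm]; linarith
  have hmc : m + c = b := by rw [hm, hc]; ring
  set θ : ℝ := theta a m with hθ
  have hθ1 : θ < 1 := theta_lt ham hm1
  have hθ0 : 0 ≤ θ := theta_nonneg ham hm1
  set l : ℝ := 2 / (1 + θ) with hl
  have hl1 : 1 < l := by
    rw [hl, lt_div_iff₀ (by linarith)]
    linarith
  have hl0 : 0 < l := by linarith
  have hlθ : l * θ < 1 := by
    rw [hl, div_mul_eq_mul_div, div_lt_one (by linarith)]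
    linarith
  -- exponent for the number of windows
  set ϑ : ℝ := (1 + 1 / l) / 2 with hϑ
  have hil : 1 / l < 1 := by
    rw [div_lt_one hl0]; exact hl1
  have hϑ1 : ϑ < 1 := by rw [hϑ]; linarith
  have hϑl : 1 < l * ϑ := by
    have : l * ϑ = (l + 1) / 2 := by
      rw [hϑ]; field_simp
    rw [this]; linarith
  refine ⟨ϑ, hϑ1, fun T0 => ?_⟩
  have hhtop : Tendsto (fun X : ℕ => hh l X) atTop atTop := by
    unfold hh
    exact Real.tendsto_exp_atTop.comp ((tendsto_rpow_atTop hl0).comp tendsto_logN)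
  have hev := (h.zero_near hf (c := c) ha ham hm1 hc0 hl1 hlθ).and
    ((eventually_ge_atTop 100).and ((hhtop.eventually
      (eventually_ge_atTop (max T0 2))).and ((ev_hh_ge hl1 4).and ((ev_hh_ge hϑl 4).and
        (tendsto_logN.eventually (eventually_gt_atTop 0))))))
  obtain ⟨X0, hX0⟩ := Filter.eventually_atTop.1 hev
  have hns' : ¬ Summable fun n : ℕ => ‖f n‖ ^ 2 * (n : ℝ) ^ (-2 * (m + c)) := by
    rw [hmc]; exact hns
  obtain ⟨X, hXX0, hX1, hBX⟩ := frequently_large hc0 hns' X0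
  obtain ⟨hz, hX100, hXT0, hX4, hX4', hlog0⟩ := hX0 X hXX0
  have hz' := hz hBX
  have hX' : (100 : ℝ) ≤ X := by exact_mod_cast hX100
  have hXpos : (0 : ℝ) < X := by linarith
  set H : ℝ := hh l X with hH
  have hH2 : 2 ≤ H := (le_max_right _ _).trans hXT0
  have hexp4 : Real.exp (4 * Real.log X) = (X : ℝ) ^ 4 := by
    rw [show (4 : ℝ) = ((4 : ℕ) : ℝ) by norm_num, Real.exp_nat_mul, Real.exp_log hXpos]
  have hHX : (X : ℝ) ^ 4 ≤ H := by
    rw [← hexp4, hH]
    exact Real.exp_le_exp.2 hX4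
  have hlogH : Real.log H = (Real.log X) ^ l := by rw [hH, hh, Real.log_exp]
  have hX3 : (1000000 : ℝ) ≤ (X : ℝ) ^ 3 := by
    calc (1000000 : ℝ) = 100 ^ 3 := by norm_num
      _ ≤ _ := pow_le_pow_left₀ (by norm_num) hX' 3
  have hX34 : (100 : ℝ) * (X : ℝ) ^ 3 ≤ (X : ℝ) ^ 4 := by
    have : (X : ℝ) ^ 4 = X * (X : ℝ) ^ 3 := by ring
    rw [this]
    exact mul_le_mul_of_nonneg_right hX' (by positivity)
  set W : ℝ := (X : ℝ) ^ 3 + 5 with hW
  have hW0 : 0 < W := by positivity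
  -- centres of the windows
  set ctr : ℕ → ℝ := fun j => ((j : ℝ) + 1) * (2 * W + 1) with hctr
  set D : ℝ := 6 * (X : ℝ) ^ 3 with hD
  have hD0 : 0 < D := by positivity
  have hWD : 3 * W + 1 ≤ D := by rw [hD, hW]; linarith
  set J : ℕ := ⌊H / D⌋₊ with hJ
  have hJ1 : (J : ℝ) ≤ H / D := Nat.floor_le (by positivity)
  have hJ2 : H / D < J + 1 := Nat.lt_floor_add_one _
  have htop : ∀ j < J, ctr j + W < H := by
    intro j hj
    have hj' : (j : ℝ) + 1 ≤ J := by exact_mod_cast hj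
    have h1 : ctr j ≤ J * (2 * W + 1) :=
      mul_le_mul_of_nonneg_right hj' (by linarith)
    have hJpos : (1 : ℝ) ≤ J := by
      have : (0 : ℝ) ≤ j := Nat.cast_nonneg j
      linarith
    have h2 : W ≤ J * W := le_mul_of_one_le_left hW0.le hJpos
    calc ctr j + W ≤ J * (3 * W + 1) := by nlinarith
      _ < J * D := by
          apply mul_lt_mul_of_pos_left _ (by linarith)
          rw [hD, hW]
          linarith
      _ ≤ H / D * D := mul_le_mul_of_nonneg_right hJ1 hD0.le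
      _ = H := by field_simp
  have hpos : ∀ j : ℕ, 0 < ctr j - W := by
    intro j
    have : (1 : ℝ) * (2 * W + 1) ≤ ctr j :=
      mul_le_mul_of_nonneg_right (by linarith [(Nat.cast_nonneg j : (0 : ℝ) ≤ j)]) (by linarith)
    linarith
  have hex : ∀ j : ℕ, ∃ s : ℂ, j < J → (FF f s = 0 ∧ a < s.re ∧ |s.im - ctr j| ≤ W) := by
    intro j
    by_cases hj : j < J
    · have h1 : |ctr j| ≤ H := by
        rw [abs_of_pos (by linarith [hpos j])]
        linarith [htop j hj]
      obtain ⟨s, hs⟩ := hz' (ctr j) h1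
      exact ⟨s, fun _ => hs⟩
    · exact ⟨0, fun h => absurd h hj⟩
  choose s hs using hex
  have hinj : Set.InjOn s (Finset.range J : Set ℕ) := by
    have key : ∀ i j : ℕ, i < j → i < J → j < J → s i ≠ s j := by
      intro i j hij hi hj heq
      have h1 := (abs_le.1 (hs i hi).2.2).2
      have h2 := (abs_le.1 (hs j hj).2.2).1
      rw [heq] at h1
      have h3 : ctr i + (2 * W + 1) ≤ ctr j := by
        have h4 : (i : ℝ) + 1 ≤ j := by exact_mod_cast hij
        rw [hctr]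
        simp only
        nlinarith
      linarith
    intro i hi j hj heq
    have hi' : i < J := Finset.mem_range.1 (Finset.mem_coe.1 hi)
    have hj' : j < J := Finset.mem_range.1 (Finset.mem_coe.1 hj)
    rcases lt_trichotomy i j with h1 | h1 | h1
    · exact absurd heq (key i j h1 hi' hj')
    · exact h1
    · exact absurd heq.symm (key j i h1 hj' hi')
  refine ⟨H, (le_max_left _ _).trans hXT0, by linarith, (Finset.range J).image s, ?_, ?_⟩
  · rw [Finset.card_image_of_injOn hinj, Finset.card_range]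
    have e1 : (X : ℝ) ^ 4 ≤ Real.exp ((Real.log H) ^ ϑ) := by
      rw [← hexp4, hlogH, ← Real.rpow_mul hlog0.le]
      exact Real.exp_le_exp.2 hX4'
    have e2 : H * Real.exp (-(Real.log H) ^ ϑ) ≤ H / (X : ℝ) ^ 4 := by
      rw [Real.exp_neg, ← div_eq_mul_inv]
      exact div_le_div_of_nonneg_left (by linarith) (by positivity) e1
    have e3 : H / (X : ℝ) ^ 4 ≤ H / D - 1 := by
      have e4 : 1 ≤ H / D / 2 := by
        rw [div_div, le_div_iff₀ (by positivity)]
        rw [hD]; linarith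
      have e5 : H / (X : ℝ) ^ 4 ≤ H / D / 2 := by
        rw [div_div]
        apply div_le_div_of_nonneg_left (by linarith) (by positivity)
        rw [hD]; linarith
      linarith
    linarith
  · intro w hw
    obtain ⟨j, hj, rfl⟩ := Finset.mem_image.1 hw
    have hj' := Finset.mem_range.1 hj
    obtain ⟨h1, h2, h3⟩ := hs j hj'
    obtain ⟨h4, h5⟩ := abs_le.1 h3
    exact ⟨h1, h2, by linarith [hpos j], by linarith [htop j hj']⟩

end Pool.Agent.Helper55.MZ
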